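import Mathlib

set_option autoImplicit false

namespace Pool.Agent.Lib.MP_bf8eef_co

open Finset
open scoped Classical

variable {W V : Type} [Fintype W] [Fintype V]

/-- `φ` is an injective homomorphism from `F` to `G`. -/
def Emb (F : SimpleGraph W) (G : SimpleGraph V) (φ : W → V) : Prop :=
  Function.Injective φ ∧ ∀ a b, F.Adj a b → G.Adj (φ a) (φ b)

/-- The set of embeddings of `F` in `G` whose image contains `v`. -/
noncomputable def embs (F : SimpleGraph W) (G : SimpleGraph V) (v : V) : Finset (W → V) :=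
  univ.filter fun φ => Emb F G φ ∧ ∃ w, φ w = v

/-- The embeddings hitting `u` and missing `v` which are no longer embeddings once
`u` is replaced by `v`. -/
noncomputable def obs (F : SimpleGraph W) (G : SimpleGraph V) (u v : V) : Finset (W → V) :=
  univ.filter fun φ => Emb F G φ ∧ (∃ w, φ w = u) ∧ (∀ w, φ w ≠ v) ∧
    ¬ Emb F G (Equiv.swap u v ∘ φ)

theorem mem_embs {F : SimpleGraph W} {G : SimpleGraph V} {v : V} {φ : W → V} :
    φ ∈ embs F G v ↔ Emb F G φ ∧ ∃ w, φ w = v := by simp [embs]

theorem mem_obs {F : SimpleGraph W} {G : SimpleGraph V} {u v : V} {φ : W → V} :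
    φ ∈ obs F G u v ↔ Emb F G φ ∧ (∃ w, φ w = u) ∧ (∀ w, φ w ≠ v) ∧
    ¬ Emb F G (Equiv.swap u v ∘ φ) := by simp [obs]

omit [Fintype W] [Fintype V] in
theorem swap_swap_comp (u v : V) (φ : W → V) :
    Equiv.swap u v ∘ (Equiv.swap u v ∘ φ) = φ := by
  funext w; simp

theorem card_good (F : SimpleGraph W) (G : SimpleGraph V) (u v : V) :
    (univ.filter fun φ : W → V => Emb F G φ ∧ (∃ w, φ w = u) ∧ (∀ w, φ w ≠ v) ∧
      Emb F G (Equiv.swap u v ∘ φ)).card =
    (univ.filter fun φ : W → V => Emb F G φ ∧ (∃ w, φ w = v) ∧ (∀ w, φ w ≠ u) ∧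
      Emb F G (Equiv.swap v u ∘ φ)).card := by
  refine Finset.card_bij (fun φ _ => Equiv.swap u v ∘ φ) ?_ ?_ ?_
  · intro φ hφ
    simp only [mem_filter, mem_univ, true_and] at hφ ⊢
    obtain ⟨h1, ⟨w, hw⟩, h3, h4⟩ := hφ
    refine ⟨h4, ⟨w, by simp [hw]⟩, ?_, ?_⟩
    · intro w' hw'
      have : φ w' = v := by
        have := congrArg (Equiv.swap u v) hw'
        simpa using this
      exact h3 w' this
    · rw [Equiv.swap_comm v u, swap_swap_comp]
      exact h1
  · intro φ _ ψ _ h
    have := congrArg (fun f => Equiv.swap u v ∘ f) h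
    simpa [swap_swap_comp] using this
  · intro ψ hψ
    simp only [mem_filter, mem_univ, true_and] at hψ
    obtain ⟨h1, ⟨w, hw⟩, h3, h4⟩ := hψ
    refine ⟨Equiv.swap u v ∘ ψ, ?_, swap_swap_comp u v ψ⟩
    simp only [mem_filter, mem_univ, true_and]
    rw [Equiv.swap_comm v u] at h4
    refine ⟨h4, ⟨w, by simp [hw]⟩, ?_, ?_⟩
    · intro w' hw'
      have : ψ w' = u := by
        have := congrArg (Equiv.swap u v) hw'
        simpa using this
      exact h3 w' this
    · rw [swap_swap_comp]; exact h1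

/-- The exact comparison of the numbers of embeddings through `u` and through `v`. -/
theorem card_embs_add (F : SimpleGraph W) (G : SimpleGraph V) (u v : V) :
    (embs F G u).card + (obs F G v u).card = (embs F G v).card + (obs F G u v).card := by
  have key : ∀ u v : V, (embs F G u).card =
      (univ.filter fun φ : W → V => Emb F G φ ∧ (∃ w, φ w = u) ∧ (∃ w, φ w = v)).card +
      (univ.filter fun φ : W → V => Emb F G φ ∧ (∃ w, φ w = u) ∧ (∀ w, φ w ≠ v) ∧
        Emb F G (Equiv.swap u v ∘ φ)).card + (obs F G u v).card := by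
    intro u v
    have h1 : embs F G u =
        ((univ.filter fun φ : W → V => Emb F G φ ∧ (∃ w, φ w = u) ∧ (∃ w, φ w = v)) ∪
        (univ.filter fun φ : W → V => Emb F G φ ∧ (∃ w, φ w = u) ∧ (∀ w, φ w ≠ v) ∧
          Emb F G (Equiv.swap u v ∘ φ))) ∪ obs F G u v := by
      ext φ
      simp only [mem_embs, mem_union, mem_filter, mem_univ, true_and, mem_obs]
      constructor
      · rintro ⟨h1, h2⟩
        by_cases h3 : ∃ w, φ w = v
        · exact Or.inl (Or.inl ⟨h1, h2, h3⟩)
        · push Not at h3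
          by_cases h4 : Emb F G (Equiv.swap u v ∘ φ)
          · exact Or.inl (Or.inr ⟨h1, h2, h3, h4⟩)
          · exact Or.inr ⟨h1, h2, h3, h4⟩
      · rintro ((⟨h1, h2, _⟩ | ⟨h1, h2, _⟩) | ⟨h1, h2, _⟩) <;> exact ⟨h1, h2⟩
    rw [h1, Finset.card_union_of_disjoint, Finset.card_union_of_disjoint]
    · rw [Finset.disjoint_left]
      intro φ hφ hφ'
      simp only [mem_filter, mem_univ, true_and] at hφ hφ'
      obtain ⟨w, hw⟩ := hφ.2.2
      exact hφ'.2.2.1 w hw
    · rw [Finset.disjoint_left]
      intro φ hφ hφ'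
      rw [mem_obs] at hφ'
      simp only [mem_union, mem_filter, mem_univ, true_and] at hφ
      rcases hφ with h | h
      · obtain ⟨w, hw⟩ := h.2.2
        exact hφ'.2.2.1 w hw
      · exact hφ'.2.2.2 h.2.2.2
  have hsym : (univ.filter fun φ : W → V => Emb F G φ ∧ (∃ w, φ w = u) ∧ (∃ w, φ w = v)) =
      (univ.filter fun φ : W → V => Emb F G φ ∧ (∃ w, φ w = v) ∧ (∃ w, φ w = u)) := by
    ext φ
    simp only [mem_filter, mem_univ, true_and]
    tauto
  rw [key u v, key v u, card_good F G u v, hsym]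
  ring

theorem embs_lt_of_obs_lt {F : SimpleGraph W} {G : SimpleGraph V} {u v : V}
    (h : (obs F G u v).card < (obs F G v u).card) :
    (embs F G u).card < (embs F G v).card := by
  have := card_embs_add F G u v
  omega

/-- A witness that moving `u` to `v` breaks an embedding. -/
theorem exists_of_mem_obs {F : SimpleGraph W} {G : SimpleGraph V} {u v : V} {φ : W → V}
    (h : φ ∈ obs F G u v) : ∃ a b, F.Adj a b ∧ φ a = u ∧ G.Adj u (φ b) ∧ ¬ G.Adj v (φ b) := by
  rw [mem_obs] at h
  obtain ⟨h1, ⟨w, hw⟩, h3, h4⟩ := h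
  have hinj : Function.Injective (Equiv.swap u v ∘ φ) :=
    (Equiv.swap u v).injective.comp h1.1
  have h5 : ¬ ∀ a b, F.Adj a b → G.Adj ((Equiv.swap u v ∘ φ) a) ((Equiv.swap u v ∘ φ) b) :=
    fun h => h4 ⟨hinj, h⟩
  push Not at h5
  obtain ⟨a, b, hab, hn⟩ := h5
  have hab' := h1.2 a b hab
  simp only [Function.comp] at hn
  by_cases ha : φ a = u
  · have hb : φ b ≠ u := fun hb => hab.ne (h1.1 (ha.trans hb.symm))
    rw [ha, Equiv.swap_apply_left, Equiv.swap_apply_of_ne_of_ne hb (h3 b)] at hn
    exact ⟨a, b, hab, ha, ha ▸ hab', hn⟩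
  · by_cases hb : φ b = u
    · rw [hb, Equiv.swap_apply_left, Equiv.swap_apply_of_ne_of_ne ha (h3 a)] at hn
      exact ⟨b, a, hab.symm, hb, by rw [← hb]; exact hab'.symm, fun h => hn h.symm⟩
    · rw [Equiv.swap_apply_of_ne_of_ne ha (h3 a), Equiv.swap_apply_of_ne_of_ne hb (h3 b)] at hn
      exact absurd hab' hn

theorem mem_obs_of_edge {F : SimpleGraph W} {G : SimpleGraph V} {u v : V} {φ : W → V}
    (h1 : Emb F G φ) (h3 : ∀ w, φ w ≠ v) {a b : W} (hab : F.Adj a b) (ha : φ a = u)
    (hn : ¬ G.Adj v (φ b)) : φ ∈ obs F G u v := by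
  rw [mem_obs]
  refine ⟨h1, ⟨a, ha⟩, h3, ?_⟩
  intro h
  have := h.2 a b hab
  have hb : φ b ≠ u := fun hb => hab.ne (h1.1 (ha.trans hb.symm))
  simp only [Function.comp] at this
  rw [ha, Equiv.swap_apply_left, Equiv.swap_apply_of_ne_of_ne hb (h3 b)] at this
  exact hn this

/-- Nested neighbourhoods: strict comparison. -/
theorem embs_lt_of_nested {F : SimpleGraph W} {G : SimpleGraph V} {u v : V}
    (hnest : ∀ q, G.Adj u q → q ≠ v → G.Adj v q) (hex : (obs F G v u).Nonempty) :
    (embs F G u).card < (embs F G v).card := by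
  apply embs_lt_of_obs_lt
  have : obs F G u v = ∅ := by
    rw [Finset.eq_empty_iff_forall_notMem]
    intro φ hφ
    obtain ⟨a, b, hab, ha, h1, h2⟩ := exists_of_mem_obs hφ
    rw [mem_obs] at hφ
    exact h2 (hnest _ h1 (hφ.2.2.1 b))
  rw [this, Finset.card_empty]
  exact hex.card_pos

/-- Swap comparison. The neighbourhood of `u` is contained in that of `v` up to `w`. -/
theorem embs_lt_of_swap {F : SimpleGraph W} {G : SimpleGraph V} {u v w w' : V}
    (huw : u ≠ w) (huw' : u ≠ w') (hvw : v ≠ w) (hvw' : v ≠ w')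
    (hnest : ∀ q, G.Adj u q → q ≠ v → q ≠ w → G.Adj v q)
    (hn : ¬ G.Adj u w')
    (h : ((obs F G u v).filter fun φ =>
        ¬ Emb F G (Equiv.swap u v ∘ Equiv.swap w w' ∘ φ)).card <
      ((obs F G v u).filter fun φ =>
        ¬ Emb F G (Equiv.swap u v ∘ Equiv.swap w w' ∘ φ)).card) :
    (embs F G u).card < (embs F G v).card := by
  apply embs_lt_of_obs_lt
  have hcomm : ∀ x, Equiv.swap u v (Equiv.swap w w' x) = Equiv.swap w w' (Equiv.swap u v x) := by
    intro x
    simp only [Equiv.swap_apply_def]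
    split_ifs <;> simp_all
  have hinv : ∀ φ : W → V, Equiv.swap u v ∘ Equiv.swap w w' ∘
      (Equiv.swap u v ∘ Equiv.swap w w' ∘ φ) = φ := by
    intro φ
    funext x
    simp only [Function.comp]
    rw [hcomm (φ x), Equiv.swap_apply_self, Equiv.swap_apply_self]
  have hle : ((obs F G u v).filter fun φ =>
        Emb F G (Equiv.swap u v ∘ Equiv.swap w w' ∘ φ)).card ≤
      ((obs F G v u).filter fun φ =>
        Emb F G (Equiv.swap u v ∘ Equiv.swap w w' ∘ φ)).card := by
    apply Finset.card_le_card_of_injOn (fun φ => Equiv.swap u v ∘ Equiv.swap w w' ∘ φ)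
    · intro φ hφ
      simp only [coe_filter, Set.mem_ofPred_eq] at hφ ⊢
      obtain ⟨h1, h2⟩ := hφ
      obtain ⟨a, b, hab, ha, hub, hvb⟩ := exists_of_mem_obs h1
      rw [mem_obs] at h1
      have hbw : φ b = w := by
        by_contra hne
        exact hvb (hnest _ hub (h1.2.2.1 b) hne)
      refine ⟨?_, ?_⟩
      · refine mem_obs_of_edge h2 ?_ hab ?_ ?_
        · intro x hx
          have hx' : φ x = v := by
            simp only [Function.comp] at hx
            have := congrArg (Equiv.swap u v) hx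
            rw [Equiv.swap_apply_self, Equiv.swap_apply_left] at this
            have h' := congrArg (Equiv.swap w w') this
            rw [Equiv.swap_apply_self, Equiv.swap_apply_of_ne_of_ne hvw hvw'] at h'
            exact h'
          exact h1.2.2.1 x hx'
        · simp only [Function.comp]
          rw [ha, Equiv.swap_apply_of_ne_of_ne huw huw', Equiv.swap_apply_left]
        · simp only [Function.comp]
          rw [hbw, Equiv.swap_apply_left, Equiv.swap_apply_of_ne_of_ne huw'.symm hvw'.symm]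
          exact hn
      · rw [hinv]; exact h1.1
    · intro φ _ ψ _ he
      have := congrArg (fun f => Equiv.swap u v ∘ Equiv.swap w w' ∘ f) he
      simp only [hinv] at this
      exact this
  have e1 := Finset.card_filter_add_card_filter_not (s := obs F G u v)
    (fun φ => Emb F G (Equiv.swap u v ∘ Equiv.swap w w' ∘ φ))
  have e2 := Finset.card_filter_add_card_filter_not (s := obs F G v u)
    (fun φ => Emb F G (Equiv.swap u v ∘ Equiv.swap w w' ∘ φ))
  omega

/-- The double transposition exchanging `u, v` and `w, w'`. -/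
noncomputable def dsw (u v w w' : V) (x : V) : V := Equiv.swap u v (Equiv.swap w w' x)

omit [Fintype V] in
theorem dsw_inj (u v w w' : V) : Function.Injective (dsw u v w w') :=
  (Equiv.swap u v).injective.comp (Equiv.swap w w').injective

omit [Fintype V] in
theorem dsw_u {u v w w' : V} (huw : u ≠ w) (huw' : u ≠ w') : dsw u v w w' u = v := by
  rw [dsw, Equiv.swap_apply_of_ne_of_ne huw huw', Equiv.swap_apply_left]

omit [Fintype V] in
theorem dsw_w {u v w w' : V} (huw' : u ≠ w') (hvw' : v ≠ w') : dsw u v w w' w = w' := by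
  rw [dsw, Equiv.swap_apply_left, Equiv.swap_apply_of_ne_of_ne huw'.symm hvw'.symm]

omit [Fintype V] in
theorem dsw_w' {u v w w' : V} (huw : u ≠ w) (hvw : v ≠ w) : dsw u v w w' w' = w := by
  rw [dsw, Equiv.swap_apply_right, Equiv.swap_apply_of_ne_of_ne huw.symm hvw.symm]

omit [Fintype V] in
theorem dsw_other {u v w w' x : V} (h1 : x ≠ u) (h2 : x ≠ v) (h3 : x ≠ w) (h4 : x ≠ w') :
    dsw u v w w' x = x := by
  rw [dsw, Equiv.swap_apply_of_ne_of_ne h3 h4, Equiv.swap_apply_of_ne_of_ne h1 h2]

/-- Swap comparison, restated. -/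
theorem embs_lt_of_dsw {F : SimpleGraph W} {G : SimpleGraph V} {u v w w' : V}
    (huw : u ≠ w) (huw' : u ≠ w') (hvw : v ≠ w) (hvw' : v ≠ w')
    (hnest : ∀ q, G.Adj u q → q ≠ v → q ≠ w → G.Adj v q)
    (hn : ¬ G.Adj u w')
    (h : ((obs F G u v).filter fun φ => ¬ Emb F G (dsw u v w w' ∘ φ)).card <
      ((obs F G v u).filter fun φ => ¬ Emb F G (dsw u v w w' ∘ φ)).card) :
    (embs F G u).card < (embs F G v).card :=
  embs_lt_of_swap huw huw' hvw hvw' hnest hn h

/-- Lower bound: extensions of a prescribed partial embedding by a clique. -/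
theorem descFactorial_le_card {F : SimpleGraph W} {G : SimpleGraph V} (P : Finset W) (p : W → V)
    (hinj : Set.InjOn p P) (hhom : ∀ a ∈ P, ∀ b ∈ P, F.Adj a b → G.Adj (p a) (p b))
    (S : Finset V) (hS : ∀ s ∈ S, ∀ t ∈ S, s ≠ t → G.Adj s t) (hdisj : ∀ a ∈ P, p a ∉ S)
    (hadj : ∀ a ∈ P, ∀ b, b ∉ P → F.Adj a b → ∀ s ∈ S, G.Adj (p a) s) :
    S.card.descFactorial (Fintype.card W - P.card) ≤
      (univ.filter fun ψ : W → V => Emb F G ψ ∧ (∀ a ∈ P, ψ a = p a) ∧
        ∀ b, b ∉ P → ψ b ∈ S).card := by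
  let f : ({w : W // w ∉ P} ↪ {s : V // s ∈ S}) → (W → V) :=
    fun e w => if h : w ∈ P then p w else (e ⟨w, h⟩ : V)
  have hf : Function.Injective f := by
    intro e e' hee
    ext ⟨w, hw⟩
    have := congrFun hee w
    simpa [f, hw] using this
  have hcard : (univ.map ⟨f, hf⟩).card = S.card.descFactorial (Fintype.card W - P.card) := by
    rw [Finset.card_map, Finset.card_univ, Fintype.card_embedding_eq]
    congr 1
    · simp
    · rw [Fintype.card_subtype_compl]
      simp
  rw [← hcard]
  apply Finset.card_le_card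
  intro ψ hψ
  rw [Finset.mem_map] at hψ
  obtain ⟨e, _, rfl⟩ := hψ
  simp only [Function.Embedding.coeFn_mk, mem_filter, mem_univ, true_and]
  have hP : ∀ a ∈ P, f e a = p a := fun a ha => by simp [f, ha]
  have hQ : ∀ b (hb : b ∉ P), f e b = (e ⟨b, hb⟩ : V) := fun b hb => by simp [f, hb]
  refine ⟨⟨?_, ?_⟩, hP, ?_⟩
  · intro a b hab
    by_cases ha : a ∈ P <;> by_cases hb : b ∈ P
    · rw [hP a ha, hP b hb] at hab
      exact hinj ha hb hab
    · rw [hP a ha, hQ b hb] at hab
      exact absurd (hab ▸ (e ⟨b, hb⟩).2) (hdisj a ha)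
    · rw [hQ a ha, hP b hb] at hab
      exact absurd (hab ▸ (e ⟨a, ha⟩).2) (hdisj b hb)
    · rw [hQ a ha, hQ b hb] at hab
      have := e.injective (Subtype.ext hab)
      simpa using this
  · intro a b hab
    by_cases ha : a ∈ P <;> by_cases hb : b ∈ P
    · rw [hP a ha, hP b hb]
      exact hhom a ha b hb hab
    · rw [hP a ha, hQ b hb]
      exact hadj a ha b hb hab _ (e ⟨b, hb⟩).2
    · rw [hQ a ha, hP b hb]
      exact (hadj b hb a ha hab.symm _ (e ⟨a, ha⟩).2).symm
    · rw [hQ a ha, hQ b hb]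
      refine hS _ (e ⟨a, ha⟩).2 _ (e ⟨b, hb⟩).2 ?_
      intro h
      have := e.injective (Subtype.ext h)
      exact hab.ne (by simpa using this)
  · intro b hb
    rw [hQ b hb]
    exact (e ⟨b, hb⟩).2

/-- Upper bound: maps whose image contains a given set. -/
theorem card_contains_le (S : Finset V) :
    (univ.filter fun φ : W → V => ∀ s ∈ S, ∃ w, φ w = s).card ≤
      Fintype.card W ^ S.card * Fintype.card V ^ (Fintype.card W - S.card) := by
  let f : (W → V) → ({s : V // s ∈ S} → W) → Prop := fun φ h => ∀ s, φ (h s) = s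
  have h1 : (univ.filter fun φ : W → V => ∀ s ∈ S, ∃ w, φ w = s) ⊆
      (univ : Finset ({s : V // s ∈ S} → W)).biUnion (fun h => univ.filter fun φ : W → V =>
        f φ h) := by
    intro φ hφ
    simp only [mem_filter, mem_univ, true_and] at hφ
    choose g hg using hφ
    simp only [mem_biUnion, mem_univ, true_and, mem_filter]
    exact ⟨fun s => g s.1 s.2, fun s => hg s.1 s.2⟩
  refine (Finset.card_le_card h1).trans ?_
  refine (Finset.card_biUnion_le).trans ?_
  have h2 : ∀ h ∈ (univ : Finset ({s : V // s ∈ S} → W)),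
      (univ.filter fun φ : W → V => f φ h).card ≤
        Fintype.card V ^ (Fintype.card W - S.card) := by
    intro h _
    by_cases hi : Function.Injective h
    · let R : Finset W := univ.image h
      have hR : R.card = S.card := by
        rw [Finset.card_image_of_injective _ hi]
        simp
      have hle : (univ.filter fun φ : W → V => f φ h).card ≤
          (univ : Finset ({w : W // w ∉ R} → V)).card := by
        apply Finset.card_le_card_of_injOn (fun φ w => φ w.1)
        · intro φ _
          simp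
        · intro φ hφ ψ hψ he
          simp only [coe_filter, mem_univ, true_and, Set.mem_ofPred_eq] at hφ hψ
          funext w
          by_cases hw : w ∈ R
          · simp only [R, mem_image, mem_univ, true_and] at hw
            obtain ⟨s, rfl⟩ := hw
            rw [hφ s, hψ s]
          · exact congrFun he ⟨w, hw⟩
      refine hle.trans ?_
      rw [Finset.card_univ, Fintype.card_fun, Fintype.card_subtype_compl]
      simp [hR]
    · have : (univ.filter fun φ : W → V => f φ h) = ∅ := by
        rw [Finset.eq_empty_iff_forall_notMem]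
        intro φ hφ
        simp only [mem_filter, mem_univ, true_and] at hφ
        apply hi
        intro s t hst
        apply Subtype.ext
        rw [← hφ s, ← hφ t, hst]
      rw [this]
      simp
  refine (Finset.sum_le_card_nsmul _ _ _ h2).trans ?_
  rw [Finset.card_univ, Fintype.card_fun]
  simp

end Pool.Agent.Lib.MP_bf8eef_co
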