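import Pool.Agent.Lib.MP_bf8eef_co.Low

set_option autoImplicit false

namespace Pool.Agent.Lib.MP_bf8eef_co

open Finset
open scoped Classical

variable {W : Type} [Fintype W] {M δ g : ℕ}

/-- Embeddings through `i + 1` which cannot be moved to `i`. -/
theorem bottom_lower (F : SimpleGraph W)
    (hg : 1 ≤ g) (hgM : g * δ + δ + 1 ≤ M) {i : ℕ} (hi : i < δ)
    (u v w w' : Fin (2 * M + 1)) (hu : u.val = i) (hv : v.val = i + 1)
    (hw : w.val = M + 1 + g * i) (hw' : w'.val = 2 * M - i)
    {x b c : W} (hx : (nb F x).card = δ) (hxb : F.Adj x b) (hbc : F.Adj b c) (hcx : c ≠ x)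
    (hxc : ¬ F.Adj x c) :
    g * (M - δ - g * δ).descFactorial (Fintype.card W - (δ + 2)) ≤
      ((obs F (gr M δ g) v u).filter fun φ => ¬ Emb F (gr M δ g) (dsw u v w w' ∘ φ)).card := by
  have hne : ∀ p q : Fin (2 * M + 1), p.val ≠ q.val → p ≠ q := fun p q h h' => h (by rw [h'])
  have hstep := mul_step (g := g) hi
  have hsucc : g * (i + 1) = g * i + g := by ring
  have huw : u ≠ w := hne _ _ (by omega)
  have huw' : u ≠ w' := hne _ _ (by omega)
  have hvw : v ≠ w := hne _ _ (by omega)
  have hvw' : v ≠ w' := hne _ _ (by omega)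
  have huv : u ≠ v := hne _ _ (by omega)
  have hww' : w ≠ w' := hne _ _ (by omega)
  -- prescribed images
  obtain ⟨p, hpx, hpb, hpn, hpi⟩ := exists_prescribed F hx (sl M δ g (i + 1) hgM)
    (sl_inj hgM hg) v ⟨i, hi⟩ (mem_nb.2 hxb)
  have hpb' : p b = w' := by
    rw [hpb]
    apply Fin.ext
    rw [sl_val, if_pos (by simp only; omega), hw']
  have hxn : x ∉ nb F x := by simp [mem_nb]
  have hcn : c ∉ insert x (nb F x) := by
    rw [mem_insert, mem_nb]; push Not; exact ⟨hcx, hxc⟩
  set P : Finset W := insert c (insert x (nb F x)) with hP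
  have hPc : P.card = δ + 2 := by
    rw [hP, Finset.card_insert_of_notMem hcn, Finset.card_insert_of_notMem hxn, hx]
  have hPm : ∀ y, y ∈ P ↔ y = c ∨ y = x ∨ F.Adj x y := by
    intro y; simp [hP, mem_nb]
  have hlb : ∀ t : Fin g, M - g * (i + 1) + t.val < 2 * M + 1 := fun t => by
    have := t.2; omega
  set lv : Fin g → Fin (2 * M + 1) := fun t => ⟨M - g * (i + 1) + t.val, hlb t⟩ with hlv
  have hlvv : ∀ t, (lv t).val = M - g * (i + 1) + t.val := fun t => rfl
  have hlv1 : ∀ t, (lv t).val ≤ M := fun t => by rw [hlvv]; have := t.2; omega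
  have hlv2 : ∀ t, δ < (lv t).val := fun t => by rw [hlvv]; omega
  set S : Finset (Fin (2 * M + 1)) :=
    univ.filter fun t => M + g * δ < t.val ∧ t.val ≤ 2 * M - δ with hS
  have hSc : M - δ - g * δ ≤ S.card := by
    have h1 : (Finset.univ : Finset (Fin (M - δ - g * δ))).card ≤ S.card := by
      apply Finset.card_le_card_of_injOn
        (fun t : Fin (M - δ - g * δ) => (⟨M + g * δ + 1 + t.val, by have := t.2; omega⟩ :
          Fin (2 * M + 1)))
      · intro t _
        simp only [hS, coe_filter, mem_univ, true_and, Set.mem_ofPred_eq]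
        have := t.2
        omega
      · intro t _ t' _ h
        have h' := congrArg Fin.val h
        simp only at h'
        exact Fin.ext (by omega)
    simpa using h1
  have hsval : ∀ r, (sl M δ g (i + 1) hgM r).val ≤ M + g * δ ∨
      2 * M - δ < (sl M δ g (i + 1) hgM r).val := by
    intro r
    have h1 := r.2
    have h2 := mul_step (g := g) h1
    rw [sl_val]
    split_ifs
    · right; omega
    · left; omega
  set E : Fin g → Finset (W → Fin (2 * M + 1)) := fun t => univ.filter fun ψ =>
    Emb F (gr M δ g) ψ ∧ (∀ a ∈ P, ψ a = Function.update p c (lv t) a) ∧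
      ∀ a, a ∉ P → ψ a ∈ S with hE
  have hpc : ∀ t y, y ≠ c → Function.update p c (lv t) y = p y := fun t y hy =>
    Function.update_of_ne hy _ _
  have hpcc : ∀ t, Function.update p c (lv t) c = lv t := fun t => Function.update_self _ _ _
  have hlvadj : ∀ t r, (gr M δ g).Adj (lv t) (sl M δ g (i + 1) hgM r) := by
    intro t r
    have h1 := r.2
    have h2 := mul_step (g := g) h1
    rw [low_high (by omega) (hlv1 t) (sl_high hgM r)]
    left
    rw [hlvv, sl_val]
    split_ifs with hr
    · omega
    · have h3 : g * (i + 1) ≤ g * r.val := Nat.mul_le_mul_left g (by omega)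
      omega
  have hcard : ∀ t, (M - δ - g * δ).descFactorial (Fintype.card W - (δ + 2)) ≤ (E t).card := by
    intro t
    have key := descFactorial_le_card (F := F) (G := gr M δ g) P (Function.update p c (lv t))
      ?_ ?_ S ?_ ?_ ?_
    · rw [hPc] at key
      refine (Nat.descFactorial_le _ hSc).trans (key.trans (Finset.card_le_card ?_))
      intro ψ hψ
      simp only [hE, mem_filter, mem_univ, true_and] at hψ ⊢
      exact hψ
    · -- injectivity
      intro y hy y' hy' h
      have h1 := (hPm y).1 hy
      have h2 := (hPm y').1 hy'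
      by_cases e1 : y = c <;> by_cases e2 : y' = c
      · rw [e1, e2]
      · exfalso
        rw [e1, hpcc, hpc t y' e2] at h
        rcases h2 with h2 | rfl | h2
        · exact e2 h2
        · rw [hpx] at h
          have := hlv2 t
          rw [h] at this; omega
        · obtain ⟨r, hr⟩ := hpn y' (mem_nb.2 h2)
          have h3 := sl_high (i := i + 1) hgM r
          have h4 := hlv1 t
          rw [h, hr] at h4; omega
      · exfalso
        rw [e2, hpcc, hpc t y e1] at h
        rcases h1 with h2 | rfl | h2
        · exact e1 h2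
        · rw [hpx] at h
          have := hlv2 t
          rw [← h] at this; omega
        · obtain ⟨r, hr⟩ := hpn y (mem_nb.2 h2)
          have h3 := sl_high (i := i + 1) hgM r
          have h4 := hlv1 t
          rw [← h, hr] at h4; omega
      · rw [hpc t y e1, hpc t y' e2] at h
        rcases h1 with h1 | rfl | h1
        · exact absurd h1 e1
        · rcases h2 with h2 | rfl | h2
          · exact absurd h2 e2
          · rfl
          · obtain ⟨r, hr⟩ := hpn y' (mem_nb.2 h2)
            have h3 := sl_high (i := i + 1) hgM r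
            rw [hpx, hr] at h
            rw [← h] at h3; omega
        · rcases h2 with h2 | rfl | h2
          · exact absurd h2 e2
          · obtain ⟨r, hr⟩ := hpn y (mem_nb.2 h1)
            have h3 := sl_high (i := i + 1) hgM r
            rw [hpx, hr] at h
            rw [h] at h3; omega
          · exact hpi (mem_nb.2 h1) (mem_nb.2 h2) h
    · -- homomorphism on P
      have haux : ∀ y y', y ∈ P → y' ∈ P → F.Adj y y' → (y = c ∨ y = x) →
          (gr M δ g).Adj (Function.update p c (lv t) y) (Function.update p c (lv t) y') := by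
        intro y y' hy hy' hyy h1
        have h2 := (hPm y').1 hy'
        rcases h1 with rfl | rfl
        · rw [hpcc, hpc t y' hyy.ne']
          rcases h2 with h2 | rfl | h2
          · exact absurd h2 hyy.ne'
          · exact absurd hyy.symm hxc
          · obtain ⟨r, hr⟩ := hpn y' (mem_nb.2 h2)
            rw [hr]; exact hlvadj t r
        · rw [hpc t y hcx.symm, hpx]
          obtain ⟨r, hr⟩ := hpn y' (mem_nb.2 hyy)
          have e2 : y' ≠ c := fun h => hxc (h ▸ hyy)
          rw [hpc t y' e2, hr, adj_sl hgM v hv (by omega)]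
          exact ⟨r, rfl⟩
      intro y hy y' hy' hyy
      by_cases h1 : y = c ∨ y = x
      · exact haux y y' hy hy' hyy h1
      · by_cases h2 : y' = c ∨ y' = x
        · exact (haux y' y hy' hy hyy.symm h2).symm
        · push Not at h1 h2
          have h3 : F.Adj x y := by
            rcases (hPm y).1 hy with h | h | h
            · exact absurd h h1.1
            · exact absurd h h1.2
            · exact h
          have h4 : F.Adj x y' := by
            rcases (hPm y').1 hy' with h | h | h
            · exact absurd h h2.1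
            · exact absurd h h2.2
            · exact h
          obtain ⟨r, hr⟩ := hpn y (mem_nb.2 h3)
          obtain ⟨r', hr'⟩ := hpn y' (mem_nb.2 h4)
          rw [hpc t y h1.1, hpc t y' h2.1]
          refine high_adj ?_ ?_ ?_
          · rw [hr]; exact sl_high hgM r
          · rw [hr']; exact sl_high hgM r'
          · intro h'
            exact hyy.ne (hpi (mem_nb.2 h3) (mem_nb.2 h4) h')
    · intro s hs s' hs' hss
      simp only [hS, mem_filter, mem_univ, true_and] at hs hs'
      exact high_adj (by omega) (by omega) hss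
    · intro y hy hs
      simp only [hS, mem_filter, mem_univ, true_and] at hs
      by_cases e1 : y = c
      · rw [e1, hpcc] at hs
        have := hlv1 t
        omega
      · rw [hpc t y e1] at hs
        rcases (hPm y).1 hy with h1 | rfl | h1
        · exact e1 h1
        · rw [hpx] at hs; omega
        · obtain ⟨r, hr⟩ := hpn y (mem_nb.2 h1)
          rw [hr] at hs
          have := hsval r
          omega
    · intro y hy y' hy' hyy s hs
      simp only [hS, mem_filter, mem_univ, true_and] at hs
      by_cases e1 : y = c
      · rw [e1, hpcc, low_high (by omega) (hlv1 t) (by omega)]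
        left
        have h3 : g * (i + 1) ≤ g * δ := Nat.mul_le_mul_left g (by omega)
        rw [hlvv]; omega
      · rw [hpc t y e1]
        rcases (hPm y).1 hy with h1 | rfl | h1
        · exact absurd h1 e1
        · exact absurd ((hPm y').2 (Or.inr (Or.inr hyy))) hy'
        · obtain ⟨r, hr⟩ := hpn y (mem_nb.2 h1)
          rw [hr]
          refine high_adj (sl_high hgM r) (by omega) ?_
          intro h
          have h2 := hsval r
          rw [h] at h2
          omega
  have hdisj : ((univ : Finset (Fin g)) : Set (Fin g)).PairwiseDisjoint E := by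
    intro t _ t' _ htt
    rw [Function.onFun, Finset.disjoint_left]
    intro ψ h1 h2
    simp only [hE, mem_filter, mem_univ, true_and] at h1 h2
    have hcP : c ∈ P := (hPm c).2 (Or.inl rfl)
    have e1 := h1.2.1 c hcP
    have e2 := h2.2.1 c hcP
    rw [hpcc] at e1 e2
    have e3 : (lv t).val = (lv t').val := by rw [← e1, ← e2]
    rw [hlvv, hlvv] at e3
    exact htt (Fin.ext (by omega))
  have hsum : g * (M - δ - g * δ).descFactorial (Fintype.card W - (δ + 2)) ≤
      ((univ : Finset (Fin g)).biUnion E).card := by
    rw [Finset.card_biUnion hdisj]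
    have := Finset.card_nsmul_le_sum (univ : Finset (Fin g)) (fun t => (E t).card)
      ((M - δ - g * δ).descFactorial (Fintype.card W - (δ + 2))) (fun t _ => hcard t)
    simpa using this
  refine hsum.trans (Finset.card_le_card ?_)
  intro ψ hψ
  rw [mem_biUnion] at hψ
  obtain ⟨t, _, ht⟩ := hψ
  simp only [hE, mem_filter, mem_univ, true_and] at ht
  obtain ⟨h1, h2, h3⟩ := ht
  have hψx : ψ x = v := by
    rw [h2 x ((hPm x).2 (Or.inr (Or.inl rfl))), hpc t x hcx.symm, hpx]
  have hψb : ψ b = w' := by
    rw [h2 b ((hPm b).2 (Or.inr (Or.inr hxb))), hpc t b hbc.ne, hpb']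
  have hψc : ψ c = lv t := by
    rw [h2 c ((hPm c).2 (Or.inl rfl)), hpcc]
  have hnuw' : ¬ (gr M δ g).Adj u w' := by
    rw [low_high (by omega) (by omega) (by omega)]
    rintro (h | ⟨r, h4, h5, h6⟩)
    · omega
    · have := mul_step (g := g) h5
      omega
  rw [mem_filter]
  refine ⟨mem_obs_of_edge h1 ?_ hxb hψx (by rw [hψb]; exact hnuw'), ?_⟩
  · intro y hy
    by_cases hyP : y ∈ P
    · rcases (hPm y).1 hyP with rfl | rfl | h4
      · rw [hψc] at hy
        have := hlv2 t
        rw [hy] at this; omega
      · rw [hψx] at hy; exact huv hy.symm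
      · obtain ⟨r, hr⟩ := hpn y (mem_nb.2 h4)
        have e2 : y ≠ c := fun h => hxc (h ▸ h4)
        rw [h2 y hyP, hpc t y e2, hr] at hy
        have := sl_high (i := i + 1) hgM r
        rw [hy] at this; omega
    · have := h3 y hyP
      simp only [hS, mem_filter, mem_univ, true_and] at this
      rw [hy] at this
      omega
  · intro hE'
    have h4 := hE'.2 b c hbc
    simp only [Function.comp] at h4
    have h5 := hlv1 t
    have h6 := hlv2 t
    rw [hψb, hψc, dsw_w' huw hvw, dsw_other (hne _ _ (by omega)) (hne _ _ (by omega))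
      (hne _ _ (by omega)) (hne _ _ (by omega))] at h4
    have h7 := h4.symm
    rw [low_high (by omega) h5 (by omega)] at h7
    have h8 := hlvv t
    have h9 := t.2
    rcases h7 with h7 | ⟨r, h10, h11, _⟩ <;> omega

end Pool.Agent.Lib.MP_bf8eef_co
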