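import Pool.Agent.Lib.MP_bf8eef_co.Bottom

set_option autoImplicit false

namespace Pool.Agent.Lib.MP_bf8eef_co

open Finset
open scoped Classical

variable {W : Type} [Fintype W] {M δ g : ℕ}

/-- Comparison of the low vertices `i` and `i + 1` for `i < δ`. -/
theorem step_bottom (F : SimpleGraph W) (hmin : ∀ y, δ ≤ (nb F y).card)
    (hg : 1 ≤ g) (hgM : g * δ + δ + 1 ≤ M) {i : ℕ} (hi : i < δ)
    (u v : Fin (2 * M + 1)) (hu : u.val = i) (hv : v.val = i + 1)
    {x b c : W} (hx : (nb F x).card = δ) (hxb : F.Adj x b) (hbc : F.Adj b c) (hcx : c ≠ x)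
    (hxc : ¬ F.Adj x c)
    (hcount : δ * (Fintype.card W ^ (δ + 2) * (2 * M + 1) ^ (Fintype.card W - (δ + 2))) <
      g * (M - δ - g * δ).descFactorial (Fintype.card W - (δ + 2))) :
    (embs F (gr M δ g) u).card < (embs F (gr M δ g) v).card := by
  have hne : ∀ p q : Fin (2 * M + 1), p.val ≠ q.val → p ≠ q := fun p q h h' => h (by rw [h'])
  have hstep := mul_step (g := g) hi
  obtain ⟨w, hw⟩ : ∃ w : Fin (2 * M + 1), w.val = M + 1 + g * i :=
    ⟨⟨M + 1 + g * i, by omega⟩, rfl⟩
  obtain ⟨w', hw'⟩ : ∃ w' : Fin (2 * M + 1), w'.val = 2 * M - i := ⟨⟨2 * M - i, by omega⟩, rfl⟩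
  have huw : u ≠ w := hne _ _ (by omega)
  have huw' : u ≠ w' := hne _ _ (by omega)
  have hvw : v ≠ w := hne _ _ (by omega)
  have hvw' : v ≠ w' := hne _ _ (by omega)
  have hww' : w ≠ w' := hne _ _ (by omega)
  have hnest : ∀ q, (gr M δ g).Adj u q → q ≠ v → q ≠ w → (gr M δ g).Adj v q := by
    intro q hq _ hqw
    rcases Nat.lt_or_ge M q.val with h | h
    · rw [low_high (by omega) (by omega) h] at hq ⊢
      rcases hq with hq | ⟨r, h3, h4, h5⟩
      · left; omega
      · right
        refine ⟨r, ?_, h4, h5⟩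
        rcases Nat.lt_or_ge i r with h6 | h6
        · omega
        · exfalso
          apply hqw
          apply Fin.ext
          have : r = i := by omega
          rw [h5, hw, this]
    · exact absurd hq (low_low (by omega) h)
  have hnuw' : ¬ (gr M δ g).Adj u w' := by
    rw [low_high (by omega) (by omega) (by omega)]
    rintro (h | ⟨r, h4, h5, h6⟩)
    · omega
    · have := mul_step (g := g) h5
      omega
  have hvw'adj : (gr M δ g).Adj v w' := by
    rw [low_high (by omega) (by omega) (by omega)]
    left; omega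
  refine embs_lt_of_dsw (w := w) (w' := w') huw huw' hvw hvw' hnest hnuw' ?_
  refine lt_of_le_of_lt ?_ (lt_of_lt_of_le hcount
    (bottom_lower F hg hgM hi u v w w' hu hv hw hw' hx hxb hbc hcx hxc))
  set Q : Finset (Fin (2 * M + 1)) := insert w' ((univ.filter fun t => t.val < δ).erase u) with hQ
  have hQm : ∀ t, t ∈ Q ↔ t = w' ∨ (t ≠ u ∧ t.val < δ) := by
    intro t; simp [hQ]
  have hQc : Q.card ≤ δ := by
    have h1 : (univ.filter fun t : Fin (2 * M + 1) => t.val < δ).card ≤ δ := by
      rw [Fin.card_filter_val_lt]; omega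
    have h2 : u ∈ (univ.filter fun t : Fin (2 * M + 1) => t.val < δ) := by
      simp; omega
    have h3 := Finset.card_erase_of_mem h2
    have h4 := Finset.card_insert_le w' ((univ.filter fun t : Fin (2 * M + 1) => t.val < δ).erase u)
    have h5 := Finset.card_pos.2 ⟨u, h2⟩
    rw [hQ]
    omega
  have huS : u ∉ univ.image (sl M δ g i hgM) := by
    intro h
    rw [mem_image] at h
    obtain ⟨r, _, hr⟩ := h
    have := sl_high (i := i) hgM r
    rw [hr] at this; omega
  have hSc : (insert u (univ.image (sl M δ g i hgM))).card = δ + 1 := by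
    rw [Finset.card_insert_of_notMem huS, Finset.card_image_of_injective _ (sl_inj hgM hg)]
    simp
  have hQS : ∀ t ∈ Q, t ∉ insert u (univ.image (sl M δ g i hgM)) := by
    intro t ht hmem
    rw [mem_insert, mem_image] at hmem
    rw [hQm] at ht
    rcases hmem with rfl | ⟨r, _, hr⟩
    · rcases ht with ht | ht
      · exact huw' ht
      · exact ht.1 rfl
    · rcases ht with ht | ht
      · have h1 := sl_val (i := i) hgM r
        have h2 := r.2
        have h3 := mul_step (g := g) h2
        rw [hr, ht, hw'] at h1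
        split_ifs at h1 <;> omega
      · have := sl_high (i := i) hgM r
        rw [hr] at this; omega
  have hsub : ((obs F (gr M δ g) u v).filter fun φ => ¬ Emb F (gr M δ g) (dsw u v w w' ∘ φ)) ⊆
      Q.biUnion (fun t => univ.filter fun φ : W → Fin (2 * M + 1) =>
        ∀ s ∈ insert t (insert u (univ.image (sl M δ g i hgM))), ∃ z, φ z = s) := by
    intro φ hφ
    rw [mem_filter] at hφ
    obtain ⟨hφ1, hφ2⟩ := hφ
    rw [mem_obs] at hφ1
    obtain ⟨y, hy⟩ := hφ1.2.1
    have hex : ∃ t ∈ Q, ∃ z, φ z = t := by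
      by_contra hcon
      push Not at hcon
      apply hφ2
      refine ⟨(dsw_inj u v w w').comp hφ1.1.1, ?_⟩
      have hgen : ∀ X Y, X ∉ Q → Y ∉ Q → X ≠ v → Y ≠ v → (gr M δ g).Adj X Y →
          (X = u ∨ X = w) → (gr M δ g).Adj (dsw u v w w' X) (dsw u v w w' Y) := by
        intro X Y hXQ hYQ hXv hYv hXY hX
        rw [hQm] at hXQ hYQ
        push Not at hXQ hYQ
        rcases hX with rfl | rfl
        · rw [dsw_u huw huw']
          by_cases hYw2 : Y = w
          · rw [hYw2, dsw_w huw' hvw']
            exact hvw'adj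
          · rw [dsw_other hXY.ne' hYv hYw2 hYQ.1]
            exact hnest _ hXY hYv hYw2
        · rw [dsw_w huw' hvw']
          by_cases hYu : Y = u
          · rw [hYu, dsw_u huw huw']
            exact hvw'adj.symm
          · rw [dsw_other hYu hYv hXY.ne' hYQ.1]
            rcases Nat.lt_or_ge M Y.val with h | h
            · exact high_adj (by omega) h (Ne.symm hYQ.1)
            · have h1 := hXY.symm
              have h2 := hYQ.2 hYu
              apply SimpleGraph.Adj.symm
              rw [low_high (by omega) h (by omega)] at h1 ⊢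
              left
              rcases h1 with h1 | ⟨r, h3, h4, _⟩ <;> omega
      intro X' Y' hXY'
      have hXY := hφ1.1.2 X' Y' hXY'
      simp only [Function.comp]
      have h1v := hφ1.2.2.1 X'
      have h2v := hφ1.2.2.1 Y'
      have h1Q : φ X' ∉ Q := fun h => hcon _ h X' rfl
      have h2Q : φ Y' ∉ Q := fun h => hcon _ h Y' rfl
      by_cases hX : φ X' = u ∨ φ X' = w
      · exact hgen _ _ h1Q h2Q h1v h2v hXY hX
      · by_cases hY : φ Y' = u ∨ φ Y' = w
        · exact (hgen _ _ h2Q h1Q h2v h1v hXY.symm hY).symm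
        · push Not at hX hY
          rw [hQm] at h1Q h2Q
          push Not at h1Q h2Q
          rw [dsw_other hX.1 h1v hX.2 h1Q.1, dsw_other hY.1 h2v hY.2 h2Q.1]
          exact hXY
    obtain ⟨t, ht, z, hz⟩ := hex
    simp only [mem_biUnion, mem_filter, mem_univ, true_and]
    refine ⟨t, ht, ?_⟩
    intro s hs
    rw [mem_insert, mem_insert, mem_image] at hs
    rcases hs with rfl | rfl | ⟨r, _, rfl⟩
    · exact ⟨z, hz⟩
    · exact ⟨y, hy⟩
    · exact saturate hmin hgM u hu (by omega) hφ1.1 hy r
  refine (Finset.card_le_card hsub).trans (Finset.card_biUnion_le.trans ?_)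
  have hterm : ∀ t ∈ Q, (univ.filter fun φ : W → Fin (2 * M + 1) =>
        ∀ s ∈ insert t (insert u (univ.image (sl M δ g i hgM))), ∃ z, φ z = s).card ≤
      Fintype.card W ^ (δ + 2) * (2 * M + 1) ^ (Fintype.card W - (δ + 2)) := by
    intro t ht
    have hc : (insert t (insert u (univ.image (sl M δ g i hgM)))).card = δ + 2 := by
      rw [Finset.card_insert_of_notMem (hQS t ht), hSc]
    have := card_contains_le (W := W) (insert t (insert u (univ.image (sl M δ g i hgM))))
    rw [hc] at this
    simpa using this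
  refine (Finset.sum_le_card_nsmul _ _ _ hterm).trans ?_
  rw [smul_eq_mul]
  exact Nat.mul_le_mul_right _ hQc

end Pool.Agent.Lib.MP_bf8eef_co
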