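import Pool.Agent.Lib.MP_bf8eef_co.Split

set_option autoImplicit false

namespace Pool.Agent.Lib.MP_bf8eef_co

open Finset
open scoped Classical

/-- The extra edges for the complete case. -/
def extK (M k : ℕ) (p q : ℕ) : Prop :=
  1 ≤ p ∧ p + 2 ≤ k ∧ (q + 1 = M ∨ (M + 1 ≤ q ∧ q + 2 ≤ M + k))

/-- The modified antiregular graph for complete graphs. -/
def grK (M k : ℕ) : SimpleGraph (Fin (2 * M + 1)) where
  Adj p q := p ≠ q ∧ (2 * M + 1 ≤ p.val + q.val ∨ extK M k p.val q.val ∨ extK M k q.val p.val)
  symm := ⟨fun p q h => ⟨h.1.symm, by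
    rcases h.2 with h | h | h
    · left; omega
    · right; right; exact h
    · right; left; exact h⟩⟩
  loopless := ⟨fun p h => h.1 rfl⟩

variable {W : Type} [Fintype W] {M k : ℕ}

theorem adjK {p q : Fin (2 * M + 1)} : (grK M k).Adj p q ↔
    p.val ≠ q.val ∧ (2 * M + 1 ≤ p.val + q.val ∨
      (1 ≤ p.val ∧ p.val + 2 ≤ k ∧ (q.val + 1 = M ∨ (M + 1 ≤ q.val ∧ q.val + 2 ≤ M + k))) ∨
      (1 ≤ q.val ∧ q.val + 2 ≤ k ∧ (p.val + 1 = M ∨ (M + 1 ≤ p.val ∧ p.val + 2 ≤ M + k)))) := by
  simp only [grK, extK, ne_eq, Fin.ext_iff]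

/-- A clique containing `v` and `q`, missing `u`, where `q` is not adjacent to `u`. -/
theorem clique_obs {V : Type} [Fintype V] {G : SimpleGraph V} {u v : V}
    (s : Fin (Fintype.card W) → V) (hadj : ∀ r r', r ≠ r' → G.Adj (s r) (s r'))
    (r1 r2 : Fin (Fintype.card W)) (h12 : r1 ≠ r2) (hv : s r1 = v) (hu : ∀ r, s r ≠ u)
    (hn : ¬ G.Adj u (s r2)) : (obs (⊤ : SimpleGraph W) G v u).Nonempty := by
  let e := Fintype.equivFin W
  refine ⟨fun w => s (e w), ?_⟩
  refine mem_obs_of_edge (a := e.symm r1) (b := e.symm r2) ⟨?_, ?_⟩ (fun w => hu _) ?_ ?_ ?_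
  · intro a b hab
    by_contra hne
    have := hadj (e a) (e b) (fun h => hne (e.injective h))
    simp only at hab
    rw [hab] at this
    exact G.loopless.irrefl _ this
  · intro a b hab
    exact hadj _ _ (fun h => hab.ne (e.injective h))
  · simp [h12]
  · simpa using hv
  · simpa using hn

/-- Vertices in the lower half, from `k - 1` on. -/
theorem stepK_low (hk : k = Fintype.card W) (hk3 : 3 ≤ k) (hM : 2 * k ≤ M)
    (u v : Fin (2 * M + 1)) (hv : v.val = u.val + 1) (h1 : k ≤ u.val + 1) (h2 : u.val + 1 < M) :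
    (embs (⊤ : SimpleGraph W) (grK M k) u).card < (embs (⊤ : SimpleGraph W) (grK M k) v).card := by
  subst hk
  apply embs_lt_of_nested
  · intro q hq hqv
    rw [adjK] at hq ⊢
    omega
  · have hb : ∀ r : Fin (Fintype.card W), (if r.val = 0 then v.val else 2 * M - u.val + (r.val - 1))
        < 2 * M + 1 := by
      intro r; have := r.2; split_ifs <;> omega
    refine clique_obs (fun r => ⟨if r.val = 0 then v.val else 2 * M - u.val + (r.val - 1), hb r⟩)
      ?_ ⟨0, by omega⟩ ⟨1, by omega⟩ (by simp) (by simp) ?_ ?_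
    · intro r r' hrr
      have h3 : r.val ≠ r'.val := fun h => hrr (Fin.ext h)
      have h4 := r.2
      have h5 := r'.2
      rw [adjK]
      simp only
      split_ifs <;> omega
    · intro r h
      have h3 := congrArg Fin.val h
      simp only at h3
      split_ifs at h3 <;> omega
    · rw [adjK]
      simp
      omega

theorem stepK_mid (hk : k = Fintype.card W) (hk3 : 3 ≤ k) (hM : 2 * k ≤ M)
    (u v : Fin (2 * M + 1)) (hv : v.val = M + 1) (hu : u.val = M) :
    (embs (⊤ : SimpleGraph W) (grK M k) u).card < (embs (⊤ : SimpleGraph W) (grK M k) v).card := by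
  subst hk
  apply embs_lt_of_nested
  · intro q hq hqv
    have hqv' : q.val ≠ v.val := fun h => hqv (Fin.ext h)
    rw [adjK] at hq ⊢
    omega
  · have hb : ∀ r : Fin (Fintype.card W), (if r.val = 0 then 1 else if r.val = 1 then 2 * M else
        M - 1 + r.val) < 2 * M + 1 := by
      intro r; have := r.2; split_ifs <;> omega
    refine clique_obs (fun r => ⟨if r.val = 0 then 1 else if r.val = 1 then 2 * M else
        M - 1 + r.val, hb r⟩)
      ?_ ⟨2, by omega⟩ ⟨0, by omega⟩ (by simp) (by apply Fin.ext; simp; omega) ?_ ?_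
    · intro r r' hrr
      have h3 : r.val ≠ r'.val := fun h => hrr (Fin.ext h)
      have h4 := r.2
      have h5 := r'.2
      rw [adjK]
      simp only
      split_ifs <;> omega
    · intro r h
      have h3 := congrArg Fin.val h
      simp only at h3
      split_ifs at h3 <;> omega
    · rw [adjK]
      simp
      omega

theorem obsK_high (hk : k = Fintype.card W) (hk3 : 3 ≤ k) (hM : 2 * k ≤ M)
    (u v : Fin (2 * M + 1)) (hv : v.val = u.val + 1) (hu : M < u.val) :
    (obs (⊤ : SimpleGraph W) (grK M k) v u).Nonempty := by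
  subst hk
  have hv2 := v.2
  rcases Nat.lt_or_ge (2 * M - u.val + 1) (Fintype.card W) with hl | hl
  · have hb : ∀ r : Fin (Fintype.card W), (if r.val = 0 then 2 * M - u.val else
        if r.val ≤ 2 * M - u.val then 2 * M + 1 - r.val else
        M + 1 + (r.val - (2 * M - u.val) - 1)) < 2 * M + 1 := by
      intro r; have := r.2; split_ifs <;> omega
    refine clique_obs (fun r => ⟨_, hb r⟩)
      ?_ ⟨2 * M - u.val, by omega⟩ ⟨0, by omega⟩ (by simp [Fin.ext_iff]; omega) ?_ ?_ ?_
    · intro r r' hrr
      have h3 : r.val ≠ r'.val := fun h => hrr (Fin.ext h)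
      have h4 := r.2
      have h5 := r'.2
      rw [adjK]
      simp only
      split_ifs <;> omega
    · apply Fin.ext
      simp only
      split_ifs <;> omega
    · intro r h
      have h3 := congrArg Fin.val h
      have h4 := r.2
      simp only at h3
      split_ifs at h3 <;> omega
    · rw [adjK]
      simp only [if_pos]
      omega
  · have hb : ∀ r : Fin (Fintype.card W), (if r.val = 0 then 2 * M - u.val else
        v.val + (r.val - 1)) < 2 * M + 1 := by
      intro r; have := r.2; split_ifs <;> omega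
    refine clique_obs (fun r => ⟨_, hb r⟩)
      ?_ ⟨1, by omega⟩ ⟨0, by omega⟩ (by simp [Fin.ext_iff]) ?_ ?_ ?_
    · intro r r' hrr
      have h3 : r.val ≠ r'.val := fun h => hrr (Fin.ext h)
      have h4 := r.2
      have h5 := r'.2
      rw [adjK]
      simp only
      split_ifs <;> omega
    · apply Fin.ext
      simp
    · intro r h
      have h3 := congrArg Fin.val h
      have h4 := r.2
      simp only at h3
      split_ifs at h3 <;> omega
    · rw [adjK]
      simp only [if_pos]
      omega

theorem stepK_high (hk : k = Fintype.card W) (hk3 : 3 ≤ k) (hM : 2 * k ≤ M)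
    (u v : Fin (2 * M + 1)) (hv : v.val = u.val + 1) (hu : M < u.val) (hne : u.val + 2 ≠ M + k) :
    (embs (⊤ : SimpleGraph W) (grK M k) u).card < (embs (⊤ : SimpleGraph W) (grK M k) v).card := by
  apply embs_lt_of_nested
  · intro q hq hqv
    have hqv' : q.val ≠ v.val := fun h => hqv (Fin.ext h)
    rw [adjK] at hq ⊢
    omega
  · exact obsK_high hk hk3 hM u v hv hu

end Pool.Agent.Lib.MP_bf8eef_co
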