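import Pool.Agent.Lib.MP_bf8eef_co.Complete

set_option autoImplicit false

namespace Pool.Agent.Lib.MP_bf8eef_co

open Finset
open scoped Classical

variable {W : Type} [Fintype W] {M k : ℕ}

theorem card_into {V : Type} [Fintype V] (A : Finset V) :
    (univ.filter fun φ : W → V => ∀ w, φ w ∈ A).card = A.card ^ Fintype.card W := by
  have h : (univ.filter fun φ : W → V => ∀ w, φ w ∈ A) = Fintype.piFinset fun _ : W => A := by
    ext φ; simp [Fintype.mem_piFinset]
  rw [h, Fintype.card_piFinset]
  simp

/-- A superset of the closed neighbourhood of the special low vertex `i`. -/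
noncomputable def NN (M k i : ℕ) : Finset (Fin (2 * M + 1)) :=
  univ.filter fun q => q.val = i ∨ q.val + 1 = M ∨ (M + 1 ≤ q.val ∧ q.val + 2 ≤ M + k) ∨
    2 * M + 1 ≤ q.val + i

theorem mem_NN {i : ℕ} {q : Fin (2 * M + 1)} : q ∈ NN M k i ↔ q.val = i ∨ q.val + 1 = M ∨
    (M + 1 ≤ q.val ∧ q.val + 2 ≤ M + k) ∨ 2 * M + 1 ≤ q.val + i := by simp [NN]

theorem card_NN {i : ℕ} (hi : i + 2 ≤ k) (hM : 2 * k ≤ M) : (NN M k i).card ≤ 2 * k := by
  have h : (NN M k i).card ≤ (Finset.range (2 * k)).card := by
    apply Finset.card_le_card_of_injOn (fun q : Fin (2 * M + 1) =>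
      if q.val = i then 0 else if q.val + 1 = M then 1 else
      if q.val + 2 ≤ M + k then q.val - M + 1 else k + (2 * M - q.val))
    · intro q hq
      have hq' : q ∈ NN M k i := hq
      rw [mem_NN] at hq'
      have := q.2
      simp only [coe_range, Set.mem_Iio]
      split_ifs <;> omega
    · intro q hq q' hq' h
      have h1 : q ∈ NN M k i := hq
      have h2 : q' ∈ NN M k i := hq'
      rw [mem_NN] at h1 h2
      have h3 := q.2
      have h4 := q'.2
      simp only at h
      apply Fin.ext
      split_ifs at h <;> omega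
  simpa using h

theorem edge_countK (hk : k = Fintype.card W) {a b : W} (hab : a ≠ b)
    (v l : Fin (2 * M + 1)) (hl : l.val ≤ M) (hv : M < v.val) (hvl : v.val + l.val = 2 * M + 1) :
    (2 * M - v.val).descFactorial (k - 2) ≤
      (univ.filter fun ψ : W → Fin (2 * M + 1) => Emb (⊤ : SimpleGraph W) (grK M k) ψ ∧
        ψ a = v ∧ ψ b = l ∧ ∀ w, w ≠ a → w ≠ b → v.val < (ψ w).val).card := by
  set P : Finset W := {a, b} with hP
  have hPc : P.card = 2 := by
    rw [hP]; exact Finset.card_pair hab
  set p : W → Fin (2 * M + 1) := fun w => if w = a then v else l with hp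
  have hpa : p a = v := by simp [hp]
  have hpb : p b = l := by simp [hp, hab.symm]
  have hvl' : v ≠ l := fun h => by rw [h] at hv; omega
  have hadj : (grK M k).Adj v l := by
    rw [adjK]; omega
  set S : Finset (Fin (2 * M + 1)) := univ.filter fun t => v.val < t.val with hS
  have hSc : S.card = 2 * M - v.val := by
    have h := Fin.card_filter_val_lt (n := 2 * M + 1) (m := v.val + 1)
    have h2 := Finset.card_filter_add_card_filter_not (s := (univ : Finset (Fin (2 * M + 1))))
      (fun t => v.val < t.val)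
    have h3 : (univ.filter fun t : Fin (2 * M + 1) => ¬ v.val < t.val) =
        univ.filter fun t : Fin (2 * M + 1) => t.val < v.val + 1 := by
      ext t; simp
    rw [h3, h] at h2
    simp only [card_univ, Fintype.card_fin] at h2
    rw [hS]
    have := v.2
    omega
  have key := descFactorial_le_card (F := (⊤ : SimpleGraph W)) (G := grK M k) P p ?_ ?_ S ?_ ?_ ?_
  · rw [hSc, hPc, ← hk] at key
    refine key.trans (Finset.card_le_card ?_)
    intro ψ hψ
    simp only [mem_filter, mem_univ, true_and] at hψ ⊢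
    refine ⟨hψ.1, ?_, ?_, ?_⟩
    · rw [hψ.2.1 a (by simp [hP]), hpa]
    · rw [hψ.2.1 b (by simp [hP]), hpb]
    · intro w hwa hwb
      have := hψ.2.2 w (by simp [hP, hwa, hwb])
      simpa [hS] using this
  · intro w hw w' hw' h
    have hw1 : w = a ∨ w = b := by simpa [hP] using hw
    have hw2 : w' = a ∨ w' = b := by simpa [hP] using hw'
    rcases hw1 with rfl | rfl <;> rcases hw2 with rfl | rfl
    · rfl
    · rw [hpa, hpb] at h; exact absurd h hvl'
    · rw [hpa, hpb] at h; exact absurd h.symm hvl'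
    · rfl
  · intro w hw w' hw' h
    have hw1 : w = a ∨ w = b := by simpa [hP] using hw
    have hw2 : w' = a ∨ w' = b := by simpa [hP] using hw'
    rcases hw1 with rfl | rfl <;> rcases hw2 with rfl | rfl
    · exact absurd rfl h.ne
    · rw [hpa, hpb]; exact hadj
    · rw [hpa, hpb]; exact hadj.symm
    · exact absurd rfl h.ne
  · intro t ht t' ht' hne
    simp only [hS, mem_filter, mem_univ, true_and] at ht ht'
    have : t.val ≠ t'.val := fun h => hne (Fin.ext h)
    rw [adjK]; omega
  · intro w hw ht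
    have hw1 : w = a ∨ w = b := by simpa [hP] using hw
    simp only [hS, mem_filter, mem_univ, true_and] at ht
    rcases hw1 with rfl | rfl
    · rw [hpa] at ht; omega
    · rw [hpb] at ht; omega
  · intro w hw w' hw' h t ht
    have hw1 : w = a ∨ w = b := by simpa [hP] using hw
    simp only [hS, mem_filter, mem_univ, true_and] at ht
    rcases hw1 with rfl | rfl
    · rw [hpa, adjK]; omega
    · rw [hpb, adjK]; omega

/-- Upper bound for the obstructions at the special places. -/
theorem obsK_upper (hk : k = Fintype.card W) (hM : 2 * k ≤ M) (u v : Fin (2 * M + 1))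
    (hD : ∀ q, (grK M k).Adj u q → q ≠ v → ¬ (grK M k).Adj v q → 1 ≤ q.val ∧ q.val + 2 ≤ k) :
    (obs (⊤ : SimpleGraph W) (grK M k) u v).card ≤ k * (2 * k) ^ k := by
  have hsub : obs (⊤ : SimpleGraph W) (grK M k) u v ⊆ (Finset.range (k - 1)).biUnion (fun i =>
      univ.filter fun φ : W → Fin (2 * M + 1) => ∀ w, φ w ∈ NN M k i) := by
    intro φ hφ
    obtain ⟨a, b, hab, ha, h3, h4⟩ := exists_of_mem_obs hφ
    rw [mem_obs] at hφ
    have h5 := hD _ h3 (hφ.2.2.1 b) h4
    simp only [mem_biUnion, mem_range, mem_filter, mem_univ, true_and]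
    refine ⟨(φ b).val, by omega, ?_⟩
    intro w
    rw [mem_NN]
    by_cases hw : w = b
    · left; rw [hw]
    · have h6 := hφ.1.2 b w (by simpa using (Ne.symm hw))
      rw [adjK] at h6
      omega
  refine (Finset.card_le_card hsub).trans (Finset.card_biUnion_le.trans ?_)
  have hterm : ∀ i ∈ Finset.range (k - 1), (univ.filter fun φ : W → Fin (2 * M + 1) =>
      ∀ w, φ w ∈ NN M k i).card ≤ (2 * k) ^ k := by
    intro i hi
    rw [mem_range] at hi
    have h1 : (univ.filter fun φ : W → Fin (2 * M + 1) => ∀ w, φ w ∈ NN M k i).card =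
        (NN M k i).card ^ Fintype.card W := by
      convert card_into (W := W) (NN M k i)
    rw [h1, ← hk]
    exact Nat.pow_le_pow_left (card_NN (by omega) hM) k
  refine (Finset.sum_le_card_nsmul _ _ _ hterm).trans ?_
  rw [smul_eq_mul, card_range]
  exact Nat.mul_le_mul_right _ (by omega)

/-- The vertices `M - 1` and `M`. -/
theorem stepK_pre (hk : k = Fintype.card W) (hk3 : 3 ≤ k) (hM : 2 * k ≤ M)
    (hc : k * (2 * k) ^ k < (M - 1).descFactorial (k - 2))
    (u v : Fin (2 * M + 1)) (hv : v.val = M) (hu : u.val + 1 = M) :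
    (embs (⊤ : SimpleGraph W) (grK M k) u).card < (embs (⊤ : SimpleGraph W) (grK M k) v).card := by
  apply embs_lt_of_obs_lt
  refine lt_of_le_of_lt (obsK_upper hk hM u v ?_) (lt_of_lt_of_le hc ?_)
  · intro q h1 h2 h3
    have h4 : q.val ≠ v.val := fun h => h2 (Fin.ext h)
    rw [adjK] at h1 h3
    omega
  · have hcard : 1 < Fintype.card W := by omega
    obtain ⟨a, b, hab⟩ := Fintype.one_lt_card_iff.1 hcard
    obtain ⟨t, ht⟩ : ∃ t : Fin (2 * M + 1), t.val = M + 1 := ⟨⟨M + 1, by omega⟩, rfl⟩
    have h0 := edge_countK hk hab t v (by omega) (by omega) (by omega)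
    have h2 : 2 * M - t.val = M - 1 := by omega
    rw [h2] at h0
    refine h0.trans (Finset.card_le_card ?_)
    intro ψ hψ
    simp only [mem_filter, mem_univ, true_and] at hψ
    obtain ⟨h3, h4, h5, h6⟩ := hψ
    refine mem_obs_of_edge h3 ?_ (a := b) (b := a) (by simpa using hab.symm) h5 ?_
    · intro w hw
      by_cases hwa : w = a
      · rw [hwa, h4] at hw; rw [hw] at ht; omega
      · by_cases hwb : w = b
        · rw [hwb, h5] at hw; rw [hw] at hv; omega
        · have := h6 w hwa hwb
          rw [hw] at this; omega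
    · rw [h4, adjK]; omega

/-- The vertices `M + k - 2` and `M + k - 1`. -/
theorem stepK_special (hk : k = Fintype.card W) (hk3 : 3 ≤ k) (hM : 2 * k ≤ M)
    (hc : k * (2 * k) ^ k < (M + 1 - k).descFactorial (k - 2))
    (u v : Fin (2 * M + 1)) (hv : v.val = u.val + 1) (hu : u.val + 2 = M + k) :
    (embs (⊤ : SimpleGraph W) (grK M k) u).card < (embs (⊤ : SimpleGraph W) (grK M k) v).card := by
  apply embs_lt_of_obs_lt
  refine lt_of_le_of_lt (obsK_upper hk hM u v ?_) (lt_of_lt_of_le hc ?_)
  · intro q h1 h2 h3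
    have h4 : q.val ≠ v.val := fun h => h2 (Fin.ext h)
    rw [adjK] at h1 h3
    omega
  · have hcard : 1 < Fintype.card W := by omega
    obtain ⟨a, b, hab⟩ := Fintype.one_lt_card_iff.1 hcard
    obtain ⟨l, hl⟩ : ∃ l : Fin (2 * M + 1), l.val = 2 * M - u.val :=
      ⟨⟨2 * M - u.val, by omega⟩, rfl⟩
    have h0 := edge_countK hk hab v l (by omega) (by omega) (by omega)
    have h2 : 2 * M - v.val = M + 1 - k := by omega
    rw [h2] at h0
    refine h0.trans (Finset.card_le_card ?_)
    intro ψ hψ
    simp only [mem_filter, mem_univ, true_and] at hψ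
    obtain ⟨h3, h4, h5, h6⟩ := hψ
    refine mem_obs_of_edge h3 ?_ (a := a) (b := b) (by simpa using hab) h4 ?_
    · intro w hw
      by_cases hwa : w = a
      · rw [hwa, h4] at hw; rw [hw] at hv; omega
      · by_cases hwb : w = b
        · rw [hwb, h5] at hw; rw [hw] at hl; omega
        · have := h6 w hwa hwb
          rw [hw] at this; omega
    · rw [h5, adjK]; omega

end Pool.Agent.Lib.MP_bf8eef_co
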