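import Pool.Agent.Lib.MP_bf8eef_co.Low

set_option autoImplicit false

namespace Pool.Agent.Lib.MP_bf8eef_co

open Finset
open scoped Classical

variable {W : Type} [Fintype W] {M δ g : ℕ}

/-- Comparison of the vertices `M + 1` and `M + 2` when `F` has a leaf. -/
theorem step_leaf (F : SimpleGraph W) (hδ : δ = 1) (hM3 : 3 ≤ M)
    (u v : Fin (2 * M + 1)) (hv : v.val = M + 2) (hu : u.val = M + 1)
    {a b c : W} (hab : F.Adj a b) (hbc : F.Adj b c) (hac : a ≠ c)
    (hcount : Fintype.card W ^ 3 * (2 * M + 1) ^ (Fintype.card W - 3) <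
      (M - 2).descFactorial (Fintype.card W - 2)) :
    (embs F (gr M δ g) u).card < (embs F (gr M δ g) v).card := by
  obtain ⟨w, hw⟩ : ∃ w : Fin (2 * M + 1), w.val = 0 := ⟨⟨0, by omega⟩, rfl⟩
  obtain ⟨w', hw'⟩ : ∃ w' : Fin (2 * M + 1), w'.val = M - 1 := ⟨⟨M - 1, by omega⟩, rfl⟩
  have hne : ∀ p q : Fin (2 * M + 1), p.val ≠ q.val → p ≠ q := fun p q h h' => h (by rw [h'])
  have huv : u ≠ v := hne _ _ (by omega)
  have huw : u ≠ w := hne _ _ (by omega)
  have huw' : u ≠ w' := hne _ _ (by omega)
  have hvw : v ≠ w := hne _ _ (by omega)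
  have hvw' : v ≠ w' := hne _ _ (by omega)
  have hww' : w ≠ w' := hne _ _ (by omega)
  -- the only neighbour of `w` is `u`
  have hwadj : ∀ q, (gr M δ g).Adj w q ↔ q = u := by
    intro q
    constructor
    · intro h
      rcases Nat.lt_or_ge M q.val with hh | hh
      · rw [low_high (by omega) (by omega) hh] at h
        rcases h with h | ⟨r, h3, h4, h5⟩
        · omega
        · have : r = 0 := by omega
          subst this
          apply Fin.ext; rw [h5, hu]; simp
      · exact absurd h (low_low (by omega) hh)
    · rintro rfl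
      rw [low_high (by omega) (by omega) (by omega)]
      right
      exact ⟨0, by omega, by omega, by rw [hu]; simp⟩
  have hvw'adj : (gr M δ g).Adj v w' := by
    apply SimpleGraph.Adj.symm
    rw [low_high (by omega) (by omega) (by omega)]
    left; omega
  have hunw' : ¬ (gr M δ g).Adj u w' := by
    intro h
    have h' := h.symm
    rw [low_high (by omega) (by omega) (by omega)] at h'
    rcases h' with h' | ⟨r, h3, h4, h5⟩ <;> omega
  -- adjacency to `u` other than through `w`
  have hnest : ∀ q, (gr M δ g).Adj u q → q ≠ v → q ≠ w → (gr M δ g).Adj v q := by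
    intro q hq hqv hqw
    rcases Nat.lt_or_ge M q.val with h | h
    · exact high_adj (by omega) h hqv.symm
    · have hq' := hq.symm
      rw [low_high (by omega) h (by omega)] at hq'
      apply SimpleGraph.Adj.symm
      rw [low_high (by omega) h (by omega)]
      rcases hq' with hq' | ⟨r, h3, h4, h5⟩
      · left; omega
      · exfalso
        apply hqw
        apply Fin.ext; omega
  refine embs_lt_of_dsw (w := w) (w' := w') huw huw' hvw hvw' hnest hunw' ?_
  have hup : ((obs F (gr M δ g) u v).filter fun φ =>
      ¬ Emb F (gr M δ g) (dsw u v w w' ∘ φ)).card ≤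
      Fintype.card W ^ 3 * (2 * M + 1) ^ (Fintype.card W - 3) := by
    have hsub : ((obs F (gr M δ g) u v).filter fun φ =>
      ¬ Emb F (gr M δ g) (dsw u v w w' ∘ φ)) ⊆
      univ.filter fun φ : W → Fin (2 * M + 1) =>
        ∀ s ∈ ({u, w, w'} : Finset (Fin (2 * M + 1))), ∃ x, φ x = s := by
      intro φ hφ
      rw [mem_filter] at hφ
      obtain ⟨hφ1, hφ2⟩ := hφ
      obtain ⟨x, y, hxy, hx, h3, h4⟩ := exists_of_mem_obs hφ1
      rw [mem_obs] at hφ1
      have hyw : φ y = w := by
        by_contra hcon
        exact h4 (hnest _ h3 (hφ1.2.2.1 y) hcon)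
      have hw'mem : ∃ z, φ z = w' := by
        by_contra hcon
        push Not at hcon
        apply hφ2
        refine ⟨(dsw_inj u v w w').comp hφ1.1.1, ?_⟩
        -- the map preserves adjacency
        have hgen : ∀ X Y, X ≠ v → Y ≠ v → X ≠ w' → Y ≠ w' → (gr M δ g).Adj X Y →
            (X = u ∨ X = w) →
            (gr M δ g).Adj (dsw u v w w' X) (dsw u v w w' Y) := by
          intro X Y hXv hYv hXw hYw hXY hX
          rcases hX with rfl | rfl
          · rw [dsw_u huw huw']
            by_cases hYw2 : Y = w
            · rw [hYw2, dsw_w huw' hvw']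
              exact hvw'adj
            · rw [dsw_other hXY.ne' hYv hYw2 hYw]
              exact hnest _ hXY hYv hYw2
          · rw [hwadj] at hXY
            subst hXY
            rw [dsw_w huw' hvw', dsw_u huw huw']
            exact hvw'adj.symm
        intro X' Y' hXY'
        have hXY := hφ1.1.2 X' Y' hXY'
        simp only [Function.comp]
        have h1v := hφ1.2.2.1 X'
        have h2v := hφ1.2.2.1 Y'
        have h1w := hcon X'
        have h2w := hcon Y'
        by_cases hX : φ X' = u ∨ φ X' = w
        · exact hgen _ _ h1v h2v h1w h2w hXY hX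
        · by_cases hY : φ Y' = u ∨ φ Y' = w
          · exact (hgen _ _ h2v h1v h2w h1w hXY.symm hY).symm
          · push Not at hX hY
            rw [dsw_other hX.1 h1v hX.2 h1w, dsw_other hY.1 h2v hY.2 h2w]
            exact hXY
      simp only [mem_filter, mem_univ, true_and, mem_insert, mem_singleton]
      rintro s (rfl | rfl | rfl)
      · exact ⟨x, hx⟩
      · exact ⟨y, hyw⟩
      · exact hw'mem
    refine (Finset.card_le_card hsub).trans ?_
    have hc : ({u, w, w'} : Finset (Fin (2 * M + 1))).card = 3 := by
      rw [Finset.card_insert_of_notMem, Finset.card_pair hww']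
      simp [huw, huw']
    have := card_contains_le (W := W) ({u, w, w'} : Finset (Fin (2 * M + 1)))
    rw [hc] at this
    simpa using this
  have hlow : (M - 2).descFactorial (Fintype.card W - 2) ≤
      ((obs F (gr M δ g) v u).filter fun φ =>
      ¬ Emb F (gr M δ g) (dsw u v w w' ∘ φ)).card := by
    have h0 := edge_count (δ := δ) (g := g) (F := F) (by omega) hab v w' (by omega) (by omega)
      (by omega)
    have h2 : 2 * M - v.val = M - 2 := by omega
    rw [h2] at h0
    refine h0.trans (Finset.card_le_card ?_)
    intro ψ hψ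
    simp only [mem_filter, mem_univ, true_and] at hψ
    obtain ⟨h3, h4, h5, h6⟩ := hψ
    rw [mem_filter]
    refine ⟨?_, ?_⟩
    · refine mem_obs_of_edge h3 ?_ hab h4 (by rw [h5]; exact hunw')
      intro x hx
      by_cases hwa : x = a
      · rw [hwa, h4] at hx; exact huv hx.symm
      · by_cases hwb : x = b
        · rw [hwb, h5] at hx; exact huw' hx.symm
        · have := h6 x hwa hwb
          rw [hx] at this; omega
    · intro hE
      have hE2 := hE.2 b c hbc
      simp only [Function.comp] at hE2
      have hc6 := h6 c hac.symm hbc.ne'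
      rw [h5, dsw_w' huw hvw, dsw_other (x := ψ c) (hne _ _ (by omega)) (hne _ _ (by omega))
        (hne _ _ (by omega)) (hne _ _ (by omega)), hwadj] at hE2
      rw [hE2] at hc6
      omega
  omega

end Pool.Agent.Lib.MP_bf8eef_co
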