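import Pool.Agent.Lib.MP_bf8eef_co.Bottom2
import Pool.Agent.Lib.MP_bf8eef_co.Swap

set_option autoImplicit false

namespace Pool.Agent.Lib.MP_bf8eef_co

open Finset
open scoped Classical

theorem pow_le_descFactorial {m n r : ℕ} (h : m + r ≤ n + 1) : m ^ r ≤ n.descFactorial r := by
  refine le_trans ?_ (Nat.pow_sub_le_descFactorial n r)
  exact Nat.pow_le_pow_left (by omega) r

/-- The numerical constraints can be satisfied. -/
theorem exists_params (k δ : ℕ) (hδ : 1 ≤ δ) (hk : δ + 2 ≤ k) :
    ∃ M g : ℕ, 1 ≤ g ∧ g * δ + δ + 1 ≤ M ∧ k ≤ M ∧ 3 ≤ M ∧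
      δ * (k ^ (δ + 2) * (2 * M + 1) ^ (k - (δ + 2))) <
        g * (M - δ - g * δ).descFactorial (k - (δ + 2)) ∧
      (2 ≤ δ → δ * (k ^ (δ + 1) * (2 * M + 1) ^ (k - (δ + 1))) <
        (M - 2 - g * δ).descFactorial (k - 2)) ∧
      (k ^ 3 * (2 * M + 1) ^ (k - 3) < (M - 2).descFactorial (k - 2)) := by
  obtain ⟨g, hgdef⟩ : ∃ g, g = k ^ (k + 1) * 5 ^ k + 1 := ⟨_, rfl⟩
  obtain ⟨m, hmdef⟩ : ∃ m, m = g * δ + 2 * k + g := ⟨_, rfl⟩
  have hk1 : 1 ≤ k := by omega
  have hm1 : 1 ≤ m := by omega
  have h5 : 2 * (2 * m) + 1 ≤ 5 * m := by omega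
  have hgm : g ≤ m := by omega
  have hbase : ∀ a e r : ℕ, a ≤ k → e ≤ k → r ≤ k → a * (k ^ e * 5 ^ r) < g := by
    intro a e r ha he hr
    have h1 : a * (k ^ e * 5 ^ r) ≤ k * (k ^ k * 5 ^ k) :=
      Nat.mul_le_mul ha (Nat.mul_le_mul (Nat.pow_le_pow_right hk1 he)
        (Nat.pow_le_pow_right (by norm_num) hr))
    have h2 : k * (k ^ k * 5 ^ k) = k ^ (k + 1) * 5 ^ k := by ring
    omega
  have hmain : ∀ a e r : ℕ, a ≤ k → e ≤ k → r ≤ k →
      a * (k ^ e * (2 * (2 * m) + 1) ^ r) < g * m ^ r := by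
    intro a e r ha he hr
    have h1 : (2 * (2 * m) + 1) ^ r ≤ 5 ^ r * m ^ r := by
      rw [← mul_pow]; exact Nat.pow_le_pow_left h5 r
    calc a * (k ^ e * (2 * (2 * m) + 1) ^ r) ≤ a * (k ^ e * (5 ^ r * m ^ r)) :=
          Nat.mul_le_mul_left _ (Nat.mul_le_mul_left _ h1)
      _ = (a * (k ^ e * 5 ^ r)) * m ^ r := by ring
      _ < g * m ^ r := Nat.mul_lt_mul_of_pos_right (hbase a e r ha he hr)
          (Nat.pow_pos hm1)
  refine ⟨2 * m, g, by omega, by omega, by omega, by omega, ?_, ?_, ?_⟩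
  · refine lt_of_lt_of_le (hmain δ (δ + 2) (k - (δ + 2)) (by omega) (by omega) (by omega)) ?_
    exact Nat.mul_le_mul_left _ (pow_le_descFactorial (by omega))
  · intro hδ2
    have h1 := hmain δ (δ + 1) (k - (δ + 1)) (by omega) (by omega) (by omega)
    refine lt_of_lt_of_le h1 ?_
    have h2 : g * m ^ (k - (δ + 1)) ≤ m ^ (k - 2) := by
      calc g * m ^ (k - (δ + 1)) ≤ m * m ^ (k - 3) :=
            Nat.mul_le_mul hgm (Nat.pow_le_pow_right hm1 (by omega))
        _ = m ^ (k - 2) := by rw [← pow_succ']; congr 1; omega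
    exact h2.trans (pow_le_descFactorial (by omega))
  · have h1 := hmain 1 3 (k - 3) (by omega) (by omega) (by omega)
    rw [one_mul] at h1
    refine lt_of_lt_of_le h1 ?_
    have h2 : g * m ^ (k - 3) ≤ m ^ (k - 2) := by
      calc g * m ^ (k - 3) ≤ m * m ^ (k - 3) := Nat.mul_le_mul_right _ hgm
        _ = m ^ (k - 2) := by rw [← pow_succ']; congr 1; omega
    exact h2.trans (pow_le_descFactorial (by omega))

variable {W : Type} [Fintype W]

/-- The non complete case, with the local data supplied. -/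
theorem main_noncomplete (F : SimpleGraph W) {δ : ℕ} (hmin : ∀ y, δ ≤ (nb F y).card)
    (hδ : 1 ≤ δ) {x b c : W} (hx : (nb F x).card = δ) (hxb : F.Adj x b) (hbc : F.Adj b c)
    (hcx : c ≠ x) (hxc : ¬ F.Adj x c) :
    ∃ (m : ℕ) (G : SimpleGraph (Fin m)), 2 ≤ m ∧
      Function.Injective fun v => (embs F G v).card := by
  have hk : δ + 2 ≤ Fintype.card W := by
    have hxn : x ∉ nb F x := by simp [mem_nb]
    have hcn : c ∉ insert x (nb F x) := by
      rw [mem_insert, mem_nb]; push Not; exact ⟨hcx, hxc⟩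
    have h1 : (insert c (insert x (nb F x))).card = δ + 2 := by
      rw [Finset.card_insert_of_notMem hcn, Finset.card_insert_of_notMem hxn, hx]
    rw [← h1]
    exact Finset.card_le_univ _
  obtain ⟨M, g, hg, hgM, hkM, hM3, hc1, hc2, hc3⟩ := exists_params (Fintype.card W) δ hδ hk
  refine ⟨2 * M + 1, gr M δ g, by omega, ?_⟩
  apply StrictMono.injective
  rw [Fin.strictMono_iff_lt_succ]
  intro i
  have hi := i.2
  have hu : (i.castSucc : Fin (2 * M + 1)).val = i.val := rfl
  have hv : (i.succ : Fin (2 * M + 1)).val = i.val + 1 := rfl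
  rcases Nat.lt_or_ge i.val δ with h1 | h1
  · exact step_bottom F hmin hg hgM h1 _ _ hu hv hx hxb hbc hcx hxc hc1
  · rcases Nat.lt_or_ge i.val M with h2 | h2
    · exact step_low F hkM (by omega) hδ _ _ (by rw [hu, hv]) (by rw [hu]; exact h1)
        (by rw [hu]; exact h2) hx hxb
    · rcases Nat.eq_or_lt_of_le h2 with h3 | h3
      · exact step_mid F hkM (by omega) hδ hg (by omega) _ _ (by rw [hu, hv])
          (by rw [hu]; exact h3.symm) hx hxb
      · by_cases h4 : ∃ r, r < δ ∧ i.val = M + 1 + g * r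
        · obtain ⟨r, hr, hr2⟩ := h4
          have hstep := mul_step (g := g) hr
          rcases Nat.lt_or_ge δ 2 with h5 | h5
          · have hδ1 : δ = 1 := by omega
            have hr0 : r = 0 := by omega
            subst hr0
            exact step_leaf F hδ1 hM3 _ _ (by rw [hv, hr2]; simp) (by rw [hu, hr2]; simp)
              hxb hbc hcx.symm hc3
          · refine step_special F hmin hg hgM _ _ (by rw [hu, hv]) (by rw [hu]; exact h3)
              (by rw [hu, hr2]; omega) hxb (lt_of_lt_of_le (hc2 h5) ?_)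
            apply Nat.descFactorial_le
            rw [hv, hr2]
            omega
        · push Not at h4
          exact step_high F hkM (by omega) hδ hg (by omega) _ _ (by rw [hu, hv])
            (by rw [hu]; exact h3) (fun r hr => by rw [hu]; exact h4 r hr) hx hxb

/-- A connected graph which is not complete has the required local data. -/
theorem exists_local (F : SimpleGraph W) (hF : F.Connected) (hne : F ≠ ⊤) :
    ∃ (δ : ℕ) (x b c : W), (∀ y, δ ≤ (nb F y).card) ∧ 1 ≤ δ ∧ (nb F x).card = δ ∧ F.Adj x b ∧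
      F.Adj b c ∧ c ≠ x ∧ ¬ F.Adj x c := by
  have hN : Nonempty W := hF.nonempty
  obtain ⟨x, _, hx⟩ := Finset.exists_min_image (univ : Finset W) (fun y => (nb F y).card)
    (Finset.univ_nonempty)
  by_cases hloc : ∃ b c, F.Adj x b ∧ F.Adj b c ∧ c ≠ x ∧ ¬ F.Adj x c
  · obtain ⟨b, c, h1, h2, h3, h4⟩ := hloc
    refine ⟨(nb F x).card, x, b, c, fun y => hx y (mem_univ _), ?_, rfl, h1, h2, h3, h4⟩
    exact Finset.card_pos.2 ⟨b, mem_nb.2 h1⟩
  · exfalso
    push Not at hloc
    have hcl : ∀ y, x = y ∨ F.Adj x y := by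
      intro y
      have hr := hF.preconnected x y
      rw [SimpleGraph.reachable_iff_reflTransGen] at hr
      induction hr with
      | refl => exact Or.inl rfl
      | @tail b' c' _ hbc ih =>
        rcases ih with rfl | ih
        · exact Or.inr hbc
        · by_cases h : c' = x
          · exact Or.inl h.symm
          · exact Or.inr (hloc b' c' ih hbc h)
    apply hne
    have hcardx : (nb F x).card = Fintype.card W - 1 := by
      have : nb F x = univ.erase x := by
        ext y
        rw [mem_nb, mem_erase]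
        constructor
        · intro h; exact ⟨h.ne', mem_univ _⟩
        · rintro ⟨h, _⟩
          rcases hcl y with h' | h'
          · exact absurd h'.symm h
          · exact h'
      rw [this, Finset.card_erase_of_mem (mem_univ _), card_univ]
    ext y z
    simp only [SimpleGraph.top_adj]
    constructor
    · intro h; exact h.ne
    · intro hyz
      have h1 : nb F y ⊆ univ.erase y := by
        intro z hz
        rw [mem_nb] at hz
        rw [mem_erase]
        exact ⟨hz.ne', mem_univ _⟩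
      have h2 : (univ.erase y).card ≤ (nb F y).card := by
        rw [Finset.card_erase_of_mem (mem_univ _), card_univ, ← hcardx]
        exact hx y (mem_univ _)
      have h3 := Finset.eq_of_subset_of_card_le h1 h2
      rw [← mem_nb, h3, mem_erase]
      exact ⟨hyz.symm, mem_univ _⟩

end Pool.Agent.Lib.MP_bf8eef_co
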