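import Pool.Agent.Lib.MP_bf8eef_co.Complete2
import Pool.Agent.Lib.MP_bf8eef_co.NonComplete

set_option autoImplicit false

namespace Pool.Agent.Lib.MP_bf8eef_co

open Finset
open scoped Classical

/-- Injective maps sending one point to `v` and the others into `A`. -/
noncomputable def inj {V : Type} (W : Type) [Fintype W] [Fintype V] (v : V) (A : Finset V) :
    Finset (W → V) :=
  univ.filter fun φ => Function.Injective φ ∧ ∃ x, φ x = v ∧ ∀ y, y ≠ x → φ y ∈ A

theorem mem_inj {W V : Type} [Fintype W] [Fintype V] {v : V} {A : Finset V} {φ : W → V} :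
    φ ∈ inj W v A ↔ Function.Injective φ ∧ ∃ x, φ x = v ∧ ∀ y, y ≠ x → φ y ∈ A := by
  simp [inj]

theorem card_inj {W V : Type} [Fintype W] [Fintype V] (v : V) (A : Finset V) (hv : v ∉ A) :
    (inj W v A).card = Fintype.card W * A.card.descFactorial (Fintype.card W - 1) := by
  have h1 : inj W v A = (univ : Finset W).biUnion (fun x => univ.filter fun φ : W → V =>
      Function.Injective φ ∧ φ x = v ∧ ∀ y, y ≠ x → φ y ∈ A) := by
    ext φ
    simp only [mem_inj, mem_biUnion, mem_univ, true_and, mem_filter]
    constructor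
    · rintro ⟨h, x, h2⟩; exact ⟨x, h, h2⟩
    · rintro ⟨x, h, h2⟩; exact ⟨h, x, h2⟩
  rw [h1, Finset.card_biUnion]
  · have h2 : ∀ x ∈ (univ : Finset W), (univ.filter fun φ : W → V =>
        Function.Injective φ ∧ φ x = v ∧ ∀ y, y ≠ x → φ y ∈ A).card =
        A.card.descFactorial (Fintype.card W - 1) := by
      intro x _
      have h3 : (univ : Finset ({y : W // y ≠ x} ↪ {a : V // a ∈ A})).card =
          A.card.descFactorial (Fintype.card W - 1) := by
        rw [Finset.card_univ, Fintype.card_embedding_eq]
        simp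
      rw [← h3]
      symm
      refine Finset.card_bij (fun e _ => fun y => if h : y ≠ x then ((e ⟨y, h⟩ : {a : V // a ∈ A})
        : V) else v) ?_ ?_ ?_
      · intro e _
        simp only [mem_filter, mem_univ, true_and]
        refine ⟨?_, by simp, ?_⟩
        · intro y y' h
          by_cases hy : y = x <;> by_cases hy' : y' = x
          · rw [hy, hy']
          · simp only [hy, hy', ne_eq, not_true_eq_false, not_false_eq_true, dif_neg, dif_pos] at h
            exact absurd (h ▸ (e ⟨y', hy'⟩).2) hv
          · simp only [hy, hy', ne_eq, not_true_eq_false, not_false_eq_true, dif_neg, dif_pos] at h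
            exact absurd (h ▸ (e ⟨y, hy⟩).2) hv
          · simp only [hy, hy', ne_eq, not_false_eq_true, dif_pos] at h
            have := e.injective (Subtype.ext h)
            simpa using this
        · intro y hy
          simp [hy]
      · intro e _ e' _ h
        ext ⟨y, hy⟩
        have := congrFun h y
        simpa [hy] using this
      · intro φ hφ
        simp only [mem_filter, mem_univ, true_and] at hφ
        obtain ⟨h4, h5, h6⟩ := hφ
        refine ⟨⟨fun y => ⟨φ y.1, h6 y.1 y.2⟩, ?_⟩, mem_univ _, ?_⟩
        · intro y y' h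
          have := congrArg Subtype.val h
          exact Subtype.ext (h4 this)
        · funext y
          by_cases hy : y = x
          · simp [hy, h5]
          · simp [hy]
    rw [Finset.sum_congr rfl h2]
    simp
  · intro x _ x' _ hne
    rw [Function.onFun, Finset.disjoint_left]
    intro φ h h'
    simp only [mem_filter, mem_univ, true_and] at h h'
    exact hne (h.1 (h.2.1.trans h'.2.1.symm))

variable {W : Type} [Fintype W] {M k : ℕ}

/-- The set of the `j` last vertices. -/
noncomputable def AA (M j : ℕ) : Finset (Fin (2 * M + 1)) :=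
  univ.filter fun q => 2 * M + 1 ≤ q.val + j

theorem mem_AA {j : ℕ} {q : Fin (2 * M + 1)} : q ∈ AA M j ↔ 2 * M + 1 ≤ q.val + j := by
  simp [AA]

theorem card_AA {j : ℕ} (hj : j ≤ M) : (AA M j).card = j := by
  have h := Fin.card_filter_val_lt (n := 2 * M + 1) (m := 2 * M + 1 - j)
  have h2 := Finset.card_filter_add_card_filter_not (s := (univ : Finset (Fin (2 * M + 1))))
    (fun t => 2 * M + 1 ≤ t.val + j)
  have h3 : (univ.filter fun t : Fin (2 * M + 1) => ¬ 2 * M + 1 ≤ t.val + j) =
      univ.filter fun t : Fin (2 * M + 1) => t.val < 2 * M + 1 - j := by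
    ext t; simp; omega
  rw [h3, h] at h2
  simp only [card_univ, Fintype.card_fin] at h2
  rw [AA]
  omega

/-- The clique part of the neighbourhood of the special low vertex `i`. -/
noncomputable def QQ (M k i : ℕ) : Finset (Fin (2 * M + 1)) :=
  univ.filter fun q => 2 * M + 1 ≤ q.val + i ∨ (M + 1 ≤ q.val ∧ q.val + 2 ≤ M + k)

theorem mem_QQ {i : ℕ} {q : Fin (2 * M + 1)} : q ∈ QQ M k i ↔ 2 * M + 1 ≤ q.val + i ∨
    (M + 1 ≤ q.val ∧ q.val + 2 ≤ M + k) := by simp [QQ]

theorem card_QQ {i : ℕ} (hi : i + 2 ≤ k) (hM : 2 * k ≤ M) : (QQ M k i).card = i + (k - 2) := by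
  apply le_antisymm
  · have h : (QQ M k i).card ≤ (Finset.range (i + (k - 2))).card := by
      apply Finset.card_le_card_of_injOn (fun q : Fin (2 * M + 1) =>
        if q.val + 2 ≤ M + k then q.val - (M + 1) else k - 2 + (2 * M - q.val))
      · intro q hq
        have hq' : q ∈ QQ M k i := hq
        rw [mem_QQ] at hq'
        have := q.2
        simp only [coe_range, Set.mem_Iio]
        split_ifs <;> omega
      · intro q hq q' hq' h
        have h1 : q ∈ QQ M k i := hq
        have h2 : q' ∈ QQ M k i := hq'
        rw [mem_QQ] at h1 h2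
        have h3 := q.2
        have h4 := q'.2
        simp only at h
        apply Fin.ext
        split_ifs at h <;> omega
    simpa using h
  · have hb : ∀ t : Fin (i + (k - 2)), (if t.val < i then 2 * M - t.val else M + 1 + (t.val - i)) <
        2 * M + 1 := by
      intro t; have := t.2; split_ifs <;> omega
    have h : (univ : Finset (Fin (i + (k - 2)))).card ≤ (QQ M k i).card := by
      apply Finset.card_le_card_of_injOn (fun t : Fin (i + (k - 2)) =>
        (⟨if t.val < i then 2 * M - t.val else M + 1 + (t.val - i), hb t⟩ : Fin (2 * M + 1)))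
      · intro t _
        have := t.2
        simp only [mem_coe, mem_QQ]
        split_ifs <;> omega
      · intro t _ t' _ h
        have h1 := t.2
        have h2 := t'.2
        have h' := congrArg Fin.val h
        simp only at h'
        apply Fin.ext
        split_ifs at h' <;> omega
    simpa using h

theorem embs_natural (hk : k = Fintype.card W)
    (u : Fin (2 * M + 1)) (h1 : k ≤ u.val + 1) (h2 : u.val + 1 < M) :
    (embs (⊤ : SimpleGraph W) (grK M k) u).card = k * u.val.descFactorial (k - 1) := by
  have h3 : embs (⊤ : SimpleGraph W) (grK M k) u = inj W u (AA M u.val) := by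
    ext φ
    rw [mem_embs, mem_inj]
    constructor
    · rintro ⟨h, x, hx⟩
      refine ⟨h.1, x, hx, ?_⟩
      intro y hy
      have := h.2 x y (by simpa using (Ne.symm hy))
      rw [hx, adjK] at this
      rw [mem_AA]
      omega
    · rintro ⟨h, x, hx, h4⟩
      refine ⟨⟨h, ?_⟩, x, hx⟩
      intro a b hab
      have hab' : φ a ≠ φ b := fun h' => hab.ne (h h')
      have hab'' : (φ a).val ≠ (φ b).val := fun h' => hab' (Fin.ext h')
      have hX : φ a = u ∨ 2 * M + 1 ≤ (φ a).val + u.val := by
        by_cases ha : a = x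
        · left; rw [ha, hx]
        · right; exact mem_AA.1 (h4 a ha)
      have hY : φ b = u ∨ 2 * M + 1 ≤ (φ b).val + u.val := by
        by_cases ha : b = x
        · left; rw [ha, hx]
        · right; exact mem_AA.1 (h4 b ha)
      rw [adjK]
      refine ⟨hab'', Or.inl ?_⟩
      rcases hX with hX | hX <;> rcases hY with hY | hY
      · exact absurd (hX.trans hY.symm) hab'
      · rw [hX]; omega
      · rw [hY]; omega
      · omega
  rw [h3, card_inj, card_AA (by omega), hk]
  rw [mem_AA]; omega

theorem lt_special (hk : k = Fintype.card W) (hk3 : 3 ≤ k) (hM : 2 * k ≤ M)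
    (u : Fin (2 * M + 1)) (h1 : 1 ≤ u.val) (h2 : u.val + 2 ≤ k) :
    k * (u.val + (k - 2)).descFactorial (k - 1) <
      (embs (⊤ : SimpleGraph W) (grK M k) u).card := by
  subst hk
  have hu : u ∉ QQ M (Fintype.card W) u.val := by rw [mem_QQ]; omega
  have h3 := card_inj (W := W) u (QQ M (Fintype.card W) u.val) hu
  rw [card_QQ h2 hM] at h3
  rw [← h3]
  apply Finset.card_lt_card
  rw [Finset.ssubset_iff_of_subset]
  · -- the extra embedding
    have hb : ∀ r : Fin (Fintype.card W), (if r.val = 0 then u.val else if r.val = 1 then M - 1 else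
        if r.val = 2 then 2 * M else M - 1 + r.val) < 2 * M + 1 := by
      intro r; have := r.2; split_ifs <;> omega
    let e := Fintype.equivFin W
    let s : Fin (Fintype.card W) → Fin (2 * M + 1) := fun r => ⟨_, hb r⟩
    have hadj : ∀ r r', r ≠ r' → (grK M (Fintype.card W)).Adj (s r) (s r') := by
      intro r r' hrr
      have h3 : r.val ≠ r'.val := fun h => hrr (Fin.ext h)
      have h4 := r.2
      have h5 := r'.2
      rw [adjK]
      simp only [s]
      split_ifs <;> omega
    refine ⟨fun w => s (e w), ?_, ?_⟩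
    · rw [mem_embs]
      refine ⟨⟨?_, ?_⟩, e.symm ⟨0, by omega⟩, ?_⟩
      · intro a b hab
        by_contra hne
        have := hadj (e a) (e b) (fun h => hne (e.injective h))
        simp only at hab
        rw [hab] at this
        exact (grK M _).loopless.irrefl _ this
      · intro a b hab
        exact hadj _ _ (fun h => hab.ne (e.injective h))
      · simp [s]
    · rw [mem_inj]
      rintro ⟨_, x, hx, h4⟩
      have hex : e x = ⟨0, by omega⟩ := by
        by_contra hne
        have h5 : (e x).val ≠ 0 := fun h => hne (Fin.ext h)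
        have h6 := congrArg Fin.val hx
        have h7 := (e x).2
        simp only [s] at h6
        split_ifs at h6 <;> omega
      have h5 := h4 (e.symm ⟨1, by omega⟩) (by
        intro h
        rw [← h] at hex
        simp at hex)
      simp only [Equiv.apply_symm_apply] at h5
      rw [mem_QQ] at h5
      simp only [s] at h5
      simp at h5
      omega
  · intro φ hφ
    rw [mem_inj] at hφ
    obtain ⟨h, x, hx, h4⟩ := hφ
    rw [mem_embs]
    refine ⟨⟨h, ?_⟩, x, hx⟩
    intro a b hab
    have hab' : φ a ≠ φ b := fun h' => hab.ne (h h')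
    have hab'' : (φ a).val ≠ (φ b).val := fun h' => hab' (Fin.ext h')
    have hX : φ a = u ∨ φ a ∈ QQ M (Fintype.card W) u.val := by
      by_cases ha : a = x
      · left; rw [ha, hx]
      · right; exact h4 a ha
    have hY : φ b = u ∨ φ b ∈ QQ M (Fintype.card W) u.val := by
      by_cases ha : b = x
      · left; rw [ha, hx]
      · right; exact h4 b ha
    rw [mem_QQ] at hX hY
    rw [adjK]
    refine ⟨hab'', ?_⟩
    rcases hX with hX | hX <;> rcases hY with hY | hY
    · exact absurd (hX.trans hY.symm) hab'
    · rw [hX]; omega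
    · rw [hY]; omega
    · omega

theorem special_lt (hk : k = Fintype.card W) (hk3 : 3 ≤ k) (hM : 2 * k ≤ M)
    (u : Fin (2 * M + 1)) (h1 : 1 ≤ u.val) (h2 : u.val + 2 ≤ k) :
    (embs (⊤ : SimpleGraph W) (grK M k) u).card <
      k * (u.val + (k - 2) + 1).descFactorial (k - 1) := by
  subst hk
  obtain ⟨t, ht⟩ : ∃ t : Fin (2 * M + 1), t.val = M - 1 := ⟨⟨M - 1, by omega⟩, rfl⟩
  set N : Finset (Fin (2 * M + 1)) := insert t (QQ M (Fintype.card W) u.val) with hN
  have htQ : t ∉ QQ M (Fintype.card W) u.val := by rw [mem_QQ]; omega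
  have hNm : ∀ q, q ∈ N ↔ q.val + 1 = M ∨ 2 * M + 1 ≤ q.val + u.val ∨
      (M + 1 ≤ q.val ∧ q.val + 2 ≤ M + Fintype.card W) := by
    intro q
    rw [hN, mem_insert, mem_QQ, Fin.ext_iff]
    omega
  have hu : u ∉ N := by rw [hNm]; omega
  have h3 := card_inj (W := W) u N hu
  rw [hN, Finset.card_insert_of_notMem htQ, card_QQ h2 hM, ← hN] at h3
  rw [← h3]
  apply Finset.card_lt_card
  rw [Finset.ssubset_iff_of_subset]
  · have hb : ∀ r : Fin (Fintype.card W), (if r.val = 0 then u.val else if r.val = 1 then M - 1 else
        M - 1 + r.val) < 2 * M + 1 := by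
      intro r; have := r.2; split_ifs <;> omega
    let e := Fintype.equivFin W
    let s : Fin (Fintype.card W) → Fin (2 * M + 1) := fun r => ⟨_, hb r⟩
    refine ⟨fun w => s (e w), ?_, ?_⟩
    · rw [mem_inj]
      refine ⟨?_, e.symm ⟨0, by omega⟩, ?_, ?_⟩
      · intro a b hab
        apply e.injective
        have h6 := congrArg Fin.val hab
        have h7 := (e a).2
        have h8 := (e b).2
        apply Fin.ext
        simp only [s] at h6
        split_ifs at h6 <;> omega
      · simp [s]
      · intro y hy
        have h5 : (e y).val ≠ 0 := by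
          intro h
          apply hy
          rw [Equiv.eq_symm_apply]
          exact Fin.ext h
        have h7 := (e y).2
        rw [hNm]
        simp only [s]
        split_ifs <;> omega
    · rw [mem_embs]
      rintro ⟨h4, _⟩
      have h5 := h4.2 (e.symm ⟨1, by omega⟩) (e.symm ⟨2, by omega⟩) (by
        simp)
      rw [adjK] at h5
      simp only [s, Equiv.apply_symm_apply] at h5
      simp at h5
      omega
  · intro φ hφ
    rw [mem_embs] at hφ
    obtain ⟨h, x, hx⟩ := hφ
    rw [mem_inj]
    refine ⟨h.1, x, hx, ?_⟩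
    intro y hy
    have := h.2 x y (by simpa using (Ne.symm hy))
    rw [hx, adjK] at this
    rw [hNm]
    omega

theorem embs_zero (hk : k = Fintype.card W) (hk3 : 3 ≤ k) (hM : 2 * k ≤ M)
    (u : Fin (2 * M + 1)) (hu : u.val = 0) :
    (embs (⊤ : SimpleGraph W) (grK M k) u).card = 0 := by
  rw [Finset.card_eq_zero, Finset.eq_empty_iff_forall_notMem]
  intro φ hφ
  rw [mem_embs] at hφ
  obtain ⟨h, x, hx⟩ := hφ
  have hcard : 1 < Fintype.card W := by omega
  obtain ⟨y, hy⟩ := Fintype.exists_ne_of_one_lt_card hcard x
  have := h.2 x y (by simpa using hy.symm)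
  have h2 := (φ y).2
  rw [hx, adjK] at this
  omega

/-- Monotonicity on the natural part. -/
theorem embs_mono (hk : k = Fintype.card W) (hk3 : 3 ≤ k) (hM : 2 * k ≤ M)
    (hc : k * (2 * k) ^ k < (M + 1 - k).descFactorial (k - 2)) :
    ∀ (n : ℕ) (u v : Fin (2 * M + 1)), v.val = u.val + n + 1 → k ≤ u.val + 1 →
      (embs (⊤ : SimpleGraph W) (grK M k) u).card <
        (embs (⊤ : SimpleGraph W) (grK M k) v).card := by
  have hc' : k * (2 * k) ^ k < (M - 1).descFactorial (k - 2) :=
    lt_of_lt_of_le hc (Nat.descFactorial_le _ (by omega))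
  have hstep : ∀ u v : Fin (2 * M + 1), v.val = u.val + 1 → k ≤ u.val + 1 →
      (embs (⊤ : SimpleGraph W) (grK M k) u).card <
        (embs (⊤ : SimpleGraph W) (grK M k) v).card := by
    intro u v hv hu
    rcases Nat.lt_trichotomy (u.val + 1) M with h | h | h
    · exact stepK_low hk hk3 hM u v hv hu h
    · exact stepK_pre hk hk3 hM hc' u v (by omega) h
    · rcases Nat.eq_or_lt_of_le (Nat.lt_succ_iff.1 h) with h' | h'
      · exact stepK_mid hk hk3 hM u v (by omega) (by omega)
      · by_cases h2 : u.val + 2 = M + k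
        · exact stepK_special hk hk3 hM hc u v hv h2
        · exact stepK_high hk hk3 hM u v hv h' h2
  intro n
  induction n with
  | zero => intro u v hv hu; exact hstep u v (by omega) hu
  | succ n ih =>
    intro u v hv hu
    obtain ⟨w, hw⟩ : ∃ w : Fin (2 * M + 1), w.val = u.val + n + 1 :=
      ⟨⟨u.val + n + 1, by have := v.2; omega⟩, rfl⟩
    exact (ih u w hw hu).trans (hstep w v (by omega) (by omega))

/-- The complete case. -/
theorem main_complete (hk : k = Fintype.card W) (hk3 : 3 ≤ k) (hM : 2 * k ≤ M)
    (hc : k * (2 * k) ^ k < (M + 1 - k).descFactorial (k - 2)) :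
    Function.Injective fun v => (embs (⊤ : SimpleGraph W) (grK M k) v).card := by
  have hmono := embs_mono hk hk3 hM hc
  have hle : ∀ (u v : Fin (2 * M + 1)), u.val ≤ v.val → k ≤ u.val + 1 →
      (embs (⊤ : SimpleGraph W) (grK M k) u).card ≤
        (embs (⊤ : SimpleGraph W) (grK M k) v).card := by
    intro u v huv hu
    rcases Nat.eq_or_lt_of_le huv with h | h
    · rw [Fin.ext h]
    · exact (hmono (v.val - u.val - 1) u v (by omega) hu).le
  have hlt : ∀ u v : Fin (2 * M + 1), u.val < v.val →
      (embs (⊤ : SimpleGraph W) (grK M k) u).card ≠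
        (embs (⊤ : SimpleGraph W) (grK M k) v).card := by
    intro u v huv
    rcases Nat.eq_zero_or_pos u.val with hu0 | hu0
    · rw [embs_zero hk hk3 hM u hu0]
      apply Nat.ne_of_lt
      rcases Nat.lt_or_ge (v.val + 1) k with hv | hv
      · exact lt_of_le_of_lt (Nat.zero_le _) (lt_special hk hk3 hM v (by omega) (by omega))
      · obtain ⟨w, hw⟩ : ∃ w : Fin (2 * M + 1), w.val = k - 1 := ⟨⟨k - 1, by omega⟩, rfl⟩
        refine lt_of_lt_of_le ?_ (hle w v (by omega) (by omega))
        rw [embs_natural hk w (by omega) (by omega), hw]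
        exact Nat.mul_pos (by omega) (Nat.descFactorial_pos.2 le_rfl)
    · rcases Nat.lt_or_ge (u.val + 1) k with hu | hu
      · rcases Nat.lt_or_ge (v.val + 1) k with hv | hv
        · apply Nat.ne_of_lt
          calc (embs (⊤ : SimpleGraph W) (grK M k) u).card
              < k * (u.val + (k - 2) + 1).descFactorial (k - 1) :=
                special_lt hk hk3 hM u hu0 (by omega)
            _ ≤ k * (v.val + (k - 2)).descFactorial (k - 1) :=
                Nat.mul_le_mul_left _ (Nat.descFactorial_le _ (by omega))
            _ < _ := lt_special hk hk3 hM v (by omega) (by omega)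
        · obtain ⟨w, hw⟩ : ∃ w : Fin (2 * M + 1), w.val = u.val + (k - 2) :=
            ⟨⟨u.val + (k - 2), by omega⟩, rfl⟩
          obtain ⟨w', hw'⟩ : ∃ w' : Fin (2 * M + 1), w'.val = u.val + (k - 2) + 1 :=
            ⟨⟨u.val + (k - 2) + 1, by omega⟩, rfl⟩
          rcases Nat.lt_or_ge w.val v.val with h | h
          · apply Nat.ne_of_lt
            refine lt_of_lt_of_le (special_lt hk hk3 hM u hu0 (by omega)) ?_
            have := hle w' v (by omega) (by omega)
            rw [embs_natural hk w' (by omega) (by omega), hw'] at this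
            exact this
          · apply Nat.ne_of_gt
            refine lt_of_le_of_lt ?_ (lt_special hk hk3 hM u hu0 (by omega))
            have := hle v w h hv
            rw [embs_natural hk w (by omega) (by omega), hw] at this
            exact this
      · exact Nat.ne_of_lt (hmono (v.val - u.val - 1) u v (by omega) hu)
  intro u v huv
  simp only at huv
  by_contra hne
  have hne' : u.val ≠ v.val := fun h => hne (Fin.ext h)
  rcases Nat.lt_or_gt_of_ne hne' with h | h
  · exact hlt u v h huv
  · exact hlt v u h huv.symm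

theorem exists_complete (hk3 : 3 ≤ Fintype.card W) :
    ∃ (m : ℕ) (G : SimpleGraph (Fin m)), 2 ≤ m ∧
      Function.Injective fun v => (embs (⊤ : SimpleGraph W) G v).card := by
  obtain ⟨k, hk⟩ : ∃ k, k = Fintype.card W := ⟨_, rfl⟩
  rw [← hk] at hk3
  obtain ⟨m, hm⟩ : ∃ m, m = k * (2 * k) ^ k + 1 := ⟨_, rfl⟩
  refine ⟨2 * (m + 2 * k) + 1, grK (m + 2 * k) k, by omega,
    main_complete hk hk3 (by omega) ?_⟩
  have h1 : m ^ (k - 2) ≤ (m + 2 * k + 1 - k).descFactorial (k - 2) :=
    pow_le_descFactorial (by omega)
  have h2 : m ^ 1 ≤ m ^ (k - 2) := Nat.pow_le_pow_right (by omega) (by omega)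
  rw [pow_one] at h2
  exact lt_of_lt_of_le (by omega) (h2.trans h1)

end Pool.Agent.Lib.MP_bf8eef_co
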