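import Pool.Agent.Lib.MP_bf8eef_co.Basic

set_option autoImplicit false

namespace Pool.Agent.Lib.MP_bf8eef_co

open Finset
open scoped Classical

variable {W V : Type} [Fintype W] [Fintype V]

/-- `φ` maps `F` isomorphically onto the subgraph `H`. -/
def Onto (F : SimpleGraph W) (G : SimpleGraph V) (H : G.Subgraph) (φ : W → V) : Prop :=
  Function.Injective φ ∧ Set.range φ = H.verts ∧ ∀ a b, H.Adj (φ a) (φ b) ↔ F.Adj a b

omit [Fintype W] [Fintype V] in
theorem Onto.emb {F : SimpleGraph W} {G : SimpleGraph V} {H : G.Subgraph} {φ : W → V}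
    (h : Onto F G H φ) : Emb F G φ :=
  ⟨h.1, fun a b hab => H.adj_sub ((h.2.2 a b).2 hab)⟩

omit [Fintype W] [Fintype V] in
theorem Onto.unique {F : SimpleGraph W} {G : SimpleGraph V} {H H' : G.Subgraph} {φ : W → V}
    (h : Onto F G H φ) (h' : Onto F G H' φ) : H = H' := by
  have hv : H.verts = H'.verts := by rw [← h.2.1, ← h'.2.1]
  ext x y
  · rw [hv]
  · constructor
    · intro hxy
      have hx : x ∈ Set.range φ := by rw [h.2.1]; exact H.edge_vert hxy
      have hy : y ∈ Set.range φ := by rw [h.2.1]; exact H.edge_vert hxy.symm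
      obtain ⟨a, rfl⟩ := hx
      obtain ⟨b, rfl⟩ := hy
      rw [h'.2.2, ← h.2.2]; exact hxy
    · intro hxy
      have hx : x ∈ Set.range φ := by rw [h'.2.1]; exact H'.edge_vert hxy
      have hy : y ∈ Set.range φ := by rw [h'.2.1]; exact H'.edge_vert hxy.symm
      obtain ⟨a, rfl⟩ := hx
      obtain ⟨b, rfl⟩ := hy
      rw [h.2.2, ← h'.2.2]; exact hxy

omit [Fintype W] [Fintype V] in
theorem exists_onto {F : SimpleGraph W} {G : SimpleGraph V} {φ : W → V}
    (h : Emb F G φ) : ∃ H : G.Subgraph, Onto F G H φ := by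
  refine ⟨{ verts := Set.range φ
            Adj := fun x y => ∃ a b, F.Adj a b ∧ φ a = x ∧ φ b = y
            adj_sub := ?_
            edge_vert := ?_
            symm := ⟨?_⟩ }, h.1, rfl, ?_⟩
  · rintro x y ⟨a, b, hab, rfl, rfl⟩
    exact h.2 a b hab
  · rintro x y ⟨a, b, hab, rfl, rfl⟩
    exact ⟨a, rfl⟩
  · rintro x y ⟨a, b, hab, rfl, rfl⟩
    exact ⟨b, a, hab.symm, rfl, rfl⟩
  · intro a b
    constructor
    · rintro ⟨a', b', hab, ha, hb⟩
      rw [← h.1 ha, ← h.1 hb]
      exact hab
    · intro hab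
      exact ⟨a, b, hab, rfl, rfl⟩

omit [Fintype W] [Fintype V] in
theorem Onto.nonempty_iso {F : SimpleGraph W} {G : SimpleGraph V} {H : G.Subgraph} {φ : W → V}
    (h : Onto F G H φ) : Nonempty (H.coe ≃g F) := by
  have hb : Function.Bijective (fun w => (⟨φ w, by rw [← h.2.1]; exact ⟨w, rfl⟩⟩ : H.verts)) := by
    constructor
    · intro a b hab
      exact h.1 (congrArg Subtype.val hab)
    · rintro ⟨x, hx⟩
      rw [← h.2.1] at hx
      obtain ⟨w, rfl⟩ := hx
      exact ⟨w, rfl⟩
  let e : F ≃g H.coe := ⟨Equiv.ofBijective _ hb, by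
    intro a b
    exact h.2.2 a b⟩
  exact ⟨e.symm⟩

theorem card_onto (F : SimpleGraph W) (G : SimpleGraph V) (H : G.Subgraph)
    (hH : Nonempty (H.coe ≃g F)) :
    (univ.filter fun φ : W → V => Onto F G H φ).card = Nat.card (F ≃g F) := by
  obtain ⟨e⟩ := hH
  have hfin : Finite (F ≃g F) := by
    apply Finite.of_injective (fun (α : F ≃g F) => (α : W → W))
    intro α β hαβ
    ext w
    exact congrFun hαβ w
  have := Fintype.ofFinite (F ≃g F)
  rw [Nat.card_eq_fintype_card, ← Finset.card_univ]
  symm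
  refine Finset.card_bij (fun (α : F ≃g F) _ => fun w => ((e.symm (α w) : H.verts) : V)) ?_ ?_ ?_
  · intro α _
    simp only [mem_filter, mem_univ, true_and]
    refine ⟨?_, ?_, ?_⟩
    · intro a b hab
      exact α.injective (e.symm.injective (Subtype.ext hab))
    · ext x
      constructor
      · rintro ⟨w, rfl⟩
        exact (e.symm (α w)).2
      · intro hx
        refine ⟨α.symm (e ⟨x, hx⟩), ?_⟩
        simp
    · intro a b
      have h1 : H.coe.Adj (e.symm (α a)) (e.symm (α b)) ↔ F.Adj (α a) (α b) :=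
        e.symm.map_rel_iff
      have h2 : F.Adj (α a) (α b) ↔ F.Adj a b := α.map_rel_iff
      rw [← h2, ← h1]
      rfl
  · intro α _ β _ h
    ext w
    have := congrFun h w
    exact e.symm.injective (Subtype.ext this)
  · intro φ hφ
    simp only [mem_filter, mem_univ, true_and] at hφ
    have hmem : ∀ w, φ w ∈ H.verts := fun w => by rw [← hφ.2.1]; exact ⟨w, rfl⟩
    have hb : Function.Bijective (fun w => e ⟨φ w, hmem w⟩) := by
      constructor
      · intro a b hab
        exact hφ.1 (congrArg Subtype.val (e.injective hab))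
      · intro w
        have hx : ((e.symm w : H.verts) : V) ∈ Set.range φ := by
          rw [hφ.2.1]; exact (e.symm w).2
        obtain ⟨w', hw'⟩ := hx
        refine ⟨w', ?_⟩
        have : (⟨φ w', hmem w'⟩ : H.verts) = e.symm w := Subtype.ext hw'
        simp only
        rw [this]
        simp
    refine ⟨⟨Equiv.ofBijective _ hb, ?_⟩, mem_univ _, ?_⟩
    · intro a b
      have h1 : F.Adj (e ⟨φ a, hmem a⟩) (e ⟨φ b, hmem b⟩) ↔
        H.coe.Adj ⟨φ a, hmem a⟩ ⟨φ b, hmem b⟩ := e.map_rel_iff
      have h2 : H.coe.Adj ⟨φ a, hmem a⟩ ⟨φ b, hmem b⟩ ↔ F.Adj a b := hφ.2.2 a b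
      exact h1.trans h2
    · funext w
      have : e.symm (e ⟨φ w, hmem w⟩) = ⟨φ w, hmem w⟩ := by simp
      exact congrArg Subtype.val this

/-- The number of embeddings through `v` is the number of subgraphs isomorphic to `F` through `v`
times the number of automorphisms of `F`. -/
theorem card_embs_eq (F : SimpleGraph W) (G : SimpleGraph V) (v : V) :
    (embs F G v).card =
      {H : G.Subgraph | Nonempty (H.coe ≃g F) ∧ v ∈ H.verts}.ncard * Nat.card (F ≃g F) := by
  have hfin : Finite G.Subgraph := inferInstance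
  set T : Set G.Subgraph := {H | Nonempty (H.coe ≃g F) ∧ v ∈ H.verts} with hT
  have hTf : T.Finite := Set.toFinite T
  rw [Set.ncard_eq_toFinset_card T hTf]
  have h1 : embs F G v = hTf.toFinset.biUnion
      (fun H => univ.filter fun φ : W → V => Onto F G H φ) := by
    ext φ
    simp only [mem_embs, mem_biUnion, Set.Finite.mem_toFinset, mem_filter, mem_univ, true_and]
    constructor
    · rintro ⟨h, w, rfl⟩
      obtain ⟨H, hH⟩ := exists_onto h
      exact ⟨H, ⟨hH.nonempty_iso, by rw [← hH.2.1]; exact ⟨w, rfl⟩⟩, hH⟩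
    · rintro ⟨H, ⟨_, hv⟩, hH⟩
      refine ⟨hH.emb, ?_⟩
      rw [← hH.2.1] at hv
      exact hv
  rw [h1, Finset.card_biUnion]
  · rw [Finset.sum_congr rfl (fun H hH => card_onto F G H
      ((Set.Finite.mem_toFinset hTf).1 hH).1)]
    simp
  · intro H _ H' _ hne
    rw [Function.onFun, Finset.disjoint_left]
    intro φ h h'
    simp only [mem_filter, mem_univ, true_and] at h h'
    exact hne (h.unique h')

/-- It is enough to separate the numbers of embeddings. -/
theorem injective_of_card_embs (F : SimpleGraph W) (G : SimpleGraph V)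
    (h : Function.Injective fun v : V => (embs F G v).card) :
    Function.Injective (fun v : V =>
      {H : G.Subgraph | Nonempty (H.coe ≃g F) ∧ v ∈ H.verts}.ncard) := by
  intro u v huv
  apply h
  simp only at huv ⊢
  rw [card_embs_eq, card_embs_eq, huv]

end Pool.Agent.Lib.MP_bf8eef_co
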