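import Pool.Agent.Lib.MP_bf8eef_co.Nested

set_option autoImplicit false

namespace Pool.Agent.Lib.MP_bf8eef_co

open Finset
open scoped Classical

variable {W : Type} [Fintype W] {M δ g : ℕ}

/-- The neighbours of the low vertex `i < δ`. -/
def sl (M δ g i : ℕ) (h : g * δ + δ + 1 ≤ M) : Fin δ → Fin (2 * M + 1) := fun r =>
  ⟨if r.val < i then 2 * M - r.val else M + 1 + g * r.val, by
    have := mul_step (g := g) r.2
    split_ifs <;> omega⟩

theorem sl_val {i : ℕ} (h : g * δ + δ + 1 ≤ M) (r : Fin δ) :
    (sl M δ g i h r).val = if r.val < i then 2 * M - r.val else M + 1 + g * r.val := rfl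

theorem sl_high {i : ℕ} (h : g * δ + δ + 1 ≤ M) (r : Fin δ) : M < (sl M δ g i h r).val := by
  rw [sl_val]
  have := r.2
  split_ifs <;> omega

theorem sl_inj {i : ℕ} (h : g * δ + δ + 1 ≤ M) (hg : 1 ≤ g) :
    Function.Injective (sl M δ g i h) := by
  intro r r' h1
  have h' := congrArg Fin.val h1
  rw [sl_val, sl_val] at h'
  have e1 := mul_step (g := g) r.2
  have e2 := mul_step (g := g) r'.2
  have e3 := r.2
  have e4 := r'.2
  apply Fin.ext
  split_ifs at h'
  · omega
  · omega
  · omega
  · exact mul_inj hg (by omega)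

theorem adj_sl {i : ℕ} (h : g * δ + δ + 1 ≤ M) (a : Fin (2 * M + 1)) (ha : a.val = i)
    (hi : i ≤ δ) (q : Fin (2 * M + 1)) :
    (gr M δ g).Adj a q ↔ ∃ r, sl M δ g i h r = q := by
  constructor
  · intro hq
    rcases Nat.lt_or_ge M q.val with hh | hh
    · rw [low_high (by omega) (by omega) hh] at hq
      rcases hq with hq | ⟨r, h1, h2, h3⟩
      · have := q.2
        refine ⟨⟨2 * M - q.val, by omega⟩, Fin.ext ?_⟩
        rw [sl_val, if_pos (by simp only; omega)]
        simp only; omega
      · refine ⟨⟨r, h2⟩, Fin.ext ?_⟩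
        rw [sl_val, if_neg (by simp only; omega), h3]
    · exact absurd hq (low_low (by omega) hh)
  · rintro ⟨r, rfl⟩
    rw [low_high (by omega) (by omega) (sl_high h r), sl_val]
    split_ifs with hr
    · left; omega
    · right
      exact ⟨r.val, by omega, r.2, rfl⟩

/-- Embeddings through a low vertex `i < δ` (or `i ≤ δ`) use all its neighbours. -/
theorem saturate {F : SimpleGraph W} (hmin : ∀ y, δ ≤ (nb F y).card) {i : ℕ}
    (h : g * δ + δ + 1 ≤ M) (a : Fin (2 * M + 1)) (ha : a.val = i)
    (hi : i ≤ δ) {φ : W → Fin (2 * M + 1)} (hφ : Emb F (gr M δ g) φ) {y : W} (hy : φ y = a)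
    (r : Fin δ) : ∃ w, φ w = sl M δ g i h r := by
  have h1 : (nb F y).image φ ⊆ univ.image (sl M δ g i h) := by
    intro q hq
    rw [mem_image] at hq
    obtain ⟨w, hw, rfl⟩ := hq
    have := hφ.2 y w (mem_nb.1 hw)
    rw [hy, adj_sl h a ha hi] at this
    obtain ⟨r, hr⟩ := this
    exact mem_image.2 ⟨r, mem_univ _, hr⟩
  have h2 : (univ.image (sl M δ g i h)).card ≤ ((nb F y).image φ).card := by
    rw [Finset.card_image_of_injective _ hφ.1]
    refine le_trans (Finset.card_image_le) ?_
    simpa using hmin y
  have h3 := Finset.eq_of_subset_of_card_le h1 h2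
  have h4 : sl M δ g i h r ∈ (nb F y).image φ := by
    rw [h3]
    exact mem_image.2 ⟨r, mem_univ _, rfl⟩
  rw [mem_image] at h4
  obtain ⟨w, _, hw⟩ := h4
  exact ⟨w, hw⟩

/-- Many embeddings through a given edge in the middle. -/
theorem edge_count {F : SimpleGraph W} (hδM : δ ≤ M) {a b : W} (hab : F.Adj a b)
    (v l : Fin (2 * M + 1)) (hl : l.val ≤ M) (hv : M < v.val) (hvl : v.val + l.val = 2 * M + 1) :
    (2 * M - v.val).descFactorial (Fintype.card W - 2) ≤
      (univ.filter fun ψ : W → Fin (2 * M + 1) => Emb F (gr M δ g) ψ ∧ ψ a = v ∧ ψ b = l ∧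
        ∀ w, w ≠ a → w ≠ b → v.val < (ψ w).val).card := by
  set P : Finset W := {a, b} with hP
  have hPc : P.card = 2 := by
    rw [hP]; exact Finset.card_pair hab.ne
  set p : W → Fin (2 * M + 1) := fun w => if w = a then v else l with hp
  have hpa : p a = v := by simp [hp]
  have hpb : p b = l := by simp [hp, hab.ne']
  have hvl' : v ≠ l := fun h => by rw [h] at hv; omega
  have hadj : (gr M δ g).Adj v l := by
    apply SimpleGraph.Adj.symm
    rw [low_high hδM hl hv]
    left; omega
  set S : Finset (Fin (2 * M + 1)) := univ.filter fun t => v.val < t.val with hS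
  have hSc : S.card = 2 * M - v.val := by
    have h := Fin.card_filter_val_lt (n := 2 * M + 1) (m := v.val + 1)
    have h2 := Finset.card_filter_add_card_filter_not (s := (univ : Finset (Fin (2 * M + 1))))
      (fun t => v.val < t.val)
    have h3 : (univ.filter fun t : Fin (2 * M + 1) => ¬ v.val < t.val) =
        univ.filter fun t : Fin (2 * M + 1) => t.val < v.val + 1 := by
      ext t; simp
    rw [h3, h] at h2
    simp only [card_univ, Fintype.card_fin] at h2
    rw [hS]
    have := v.2
    omega
  have key := descFactorial_le_card (F := F) (G := gr M δ g) P p ?_ ?_ S ?_ ?_ ?_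
  · rw [hSc, hPc] at key
    refine key.trans (Finset.card_le_card ?_)
    intro ψ hψ
    simp only [mem_filter, mem_univ, true_and] at hψ ⊢
    refine ⟨hψ.1, ?_, ?_, ?_⟩
    · rw [hψ.2.1 a (by simp [hP]), hpa]
    · rw [hψ.2.1 b (by simp [hP]), hpb]
    · intro w hwa hwb
      have := hψ.2.2 w (by simp [hP, hwa, hwb])
      simpa [hS] using this
  · intro w hw w' hw' h
    have hw1 : w = a ∨ w = b := by simpa [hP] using hw
    have hw2 : w' = a ∨ w' = b := by simpa [hP] using hw'
    rcases hw1 with rfl | rfl <;> rcases hw2 with rfl | rfl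
    · rfl
    · rw [hpa, hpb] at h; exact absurd h hvl'
    · rw [hpa, hpb] at h; exact absurd h.symm hvl'
    · rfl
  · intro w hw w' hw' h
    have hw1 : w = a ∨ w = b := by simpa [hP] using hw
    have hw2 : w' = a ∨ w' = b := by simpa [hP] using hw'
    rcases hw1 with rfl | rfl <;> rcases hw2 with rfl | rfl
    · exact absurd rfl h.ne
    · rw [hpa, hpb]; exact hadj
    · rw [hpa, hpb]; exact hadj.symm
    · exact absurd rfl h.ne
  · intro t ht t' ht' hne
    simp only [hS, mem_filter, mem_univ, true_and] at ht ht'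
    exact high_adj (by omega) (by omega) hne
  · intro w hw ht
    have hw1 : w = a ∨ w = b := by simpa [hP] using hw
    simp only [hS, mem_filter, mem_univ, true_and] at ht
    rcases hw1 with rfl | rfl
    · rw [hpa] at ht; omega
    · rw [hpb] at ht; omega
  · intro w hw w' hw' h t ht
    have hw1 : w = a ∨ w = b := by simpa [hP] using hw
    simp only [hS, mem_filter, mem_univ, true_and] at ht
    rcases hw1 with rfl | rfl
    · rw [hpa]
      exact high_adj hv (by omega) (fun h => by rw [h] at ht; omega)
    · rw [hpb, low_high hδM hl (by omega)]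
      left; omega

/-- Comparison at the special high vertices when the minimum degree is at least two. -/
theorem step_special (F : SimpleGraph W) (hmin : ∀ y, δ ≤ (nb F y).card)
    (hg : 1 ≤ g) (hgM : g * δ + δ + 1 ≤ M)
    (u v : Fin (2 * M + 1)) (hv : v.val = u.val + 1) (h1 : M < u.val)
    (hu : u.val ≤ M + 1 + g * δ) {a b : W} (hab : F.Adj a b)
    (hcount : δ * (Fintype.card W ^ (δ + 1) * (2 * M + 1) ^ (Fintype.card W - (δ + 1))) <
      (2 * M - v.val).descFactorial (Fintype.card W - 2)) :
    (embs F (gr M δ g) u).card < (embs F (gr M δ g) v).card := by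
  have hv2 := v.2
  obtain ⟨l, hl⟩ : ∃ l : Fin (2 * M + 1), l.val = 2 * M - u.val := ⟨⟨2 * M - u.val, by omega⟩, rfl⟩
  have hlM : l.val ≤ M := by omega
  have hnadj : ¬ (gr M δ g).Adj u l := by
    intro h
    have h' := h.symm
    rw [low_high (by omega) hlM h1] at h'
    rcases h' with h' | ⟨r, h3, h4, h5⟩
    · omega
    · have := mul_step (g := g) h4
      omega
  apply embs_lt_of_obs_lt
  have hup : (obs F (gr M δ g) u v).card ≤
      δ * (Fintype.card W ^ (δ + 1) * (2 * M + 1) ^ (Fintype.card W - (δ + 1))) := by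
    have hsub : obs F (gr M δ g) u v ⊆ (univ : Finset (Fin δ)).biUnion (fun i =>
        univ.filter fun φ : W → Fin (2 * M + 1) => ∀ s ∈ (insert (⟨i.val, by have := i.2; omega⟩ :
          Fin (2 * M + 1)) (univ.image (sl M δ g i.val hgM))), ∃ w, φ w = s) := by
      intro φ hφ
      obtain ⟨x, y, hxy, hx, h3, h4⟩ := exists_of_mem_obs hφ
      rw [mem_obs] at hφ
      have hyv := hφ.2.2.1 y
      have hylow : (φ y).val ≤ M := by
        by_contra hcon
        exact h4 (high_adj (by omega) (by omega) hyv.symm)
      have h3' := h3.symm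
      rw [low_high (by omega) hylow h1] at h3'
      have h4' : ¬ (2 * M + 1 ≤ (φ y).val + v.val) := by
        intro h
        apply h4
        apply SimpleGraph.Adj.symm
        rw [low_high (by omega) hylow (by omega)]
        exact Or.inl h
      rcases h3' with h3' | ⟨r, h5, h6, h7⟩
      · omega
      · simp only [mem_biUnion, mem_univ, true_and, mem_filter]
        refine ⟨⟨(φ y).val, by omega⟩, ?_⟩
        intro s hs
        rw [mem_insert, mem_image] at hs
        rcases hs with rfl | ⟨r', _, rfl⟩
        · exact ⟨y, rfl⟩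
        · exact saturate hmin hgM (φ y) rfl (by omega) hφ.1 rfl r'
    refine (Finset.card_le_card hsub).trans (Finset.card_biUnion_le.trans ?_)
    have hterm : ∀ i ∈ (univ : Finset (Fin δ)), (univ.filter fun φ : W → Fin (2 * M + 1) =>
        ∀ s ∈ (insert (⟨i.val, by have := i.2; omega⟩ :
          Fin (2 * M + 1)) (univ.image (sl M δ g i.val hgM))), ∃ w, φ w = s).card ≤
        Fintype.card W ^ (δ + 1) * (2 * M + 1) ^ (Fintype.card W - (δ + 1)) := by
      intro i _
      have hc : (insert (⟨i.val, by have := i.2; omega⟩ :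
          Fin (2 * M + 1)) (univ.image (sl M δ g i.val hgM))).card = δ + 1 := by
        rw [Finset.card_insert_of_notMem, Finset.card_image_of_injective _ (sl_inj hgM hg)]
        · simp
        · intro hmem
          rw [mem_image] at hmem
          obtain ⟨r, _, hr⟩ := hmem
          have h9 : M < i.val := by
            have := sl_high (i := i.val) hgM r
            rw [hr] at this
            exact this
          have := i.2
          omega
      have := card_contains_le (W := W) (insert (⟨i.val, by have := i.2; omega⟩ :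
          Fin (2 * M + 1)) (univ.image (sl M δ g i.val hgM)))
      rw [hc] at this
      simpa using this
    refine (Finset.sum_le_card_nsmul _ _ _ hterm).trans ?_
    simp
  have hlow : (2 * M - v.val).descFactorial (Fintype.card W - 2) ≤
      (obs F (gr M δ g) v u).card := by
    refine (edge_count (δ := δ) (g := g) (F := F) (by omega) hab v l hlM (by omega)
      (by omega)).trans (Finset.card_le_card ?_)
    intro ψ hψ
    simp only [mem_filter, mem_univ, true_and] at hψ
    obtain ⟨h3, h4, h5, h6⟩ := hψ
    refine mem_obs_of_edge h3 ?_ hab h4 (by rw [h5]; exact hnadj)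
    intro w hw
    by_cases hwa : w = a
    · rw [hwa, h4] at hw; rw [hw] at hv; omega
    · by_cases hwb : w = b
      · rw [hwb, h5] at hw; rw [hw] at hlM; omega
      · have := h6 w hwa hwb
        rw [hw] at this; omega
  omega

end Pool.Agent.Lib.MP_bf8eef_co
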