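import Pool.Agent.Lib.MP_bf8eef_co.Split

set_option autoImplicit false

namespace Pool.Agent.Lib.MP_bf8eef_co

open Finset
open scoped Classical

variable {W : Type} [Fintype W] {M δ g : ℕ}

theorem mul_step {g r δ : ℕ} (h : r < δ) : g * r + g ≤ g * δ := by
  have := Nat.mul_le_mul_left g (Nat.succ_le_of_lt h)
  rw [Nat.mul_succ] at this
  exact this

theorem mul_inj {g r r' : ℕ} (hg : 1 ≤ g) (h : g * r = g * r') : r = r' :=
  Nat.eq_of_mul_eq_mul_left (by omega) h

/-- Comparison of natural low vertices. -/
theorem step_low (F : SimpleGraph W) (hM : Fintype.card W ≤ M) (hδM : δ ≤ M) (hδ : 1 ≤ δ)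
    (u v : Fin (2 * M + 1)) (hv : v.val = u.val + 1) (h1 : δ ≤ u.val) (h2 : u.val < M)
    {x b : W} (hx : (nb F x).card = δ) (hb : F.Adj x b) :
    (embs F (gr M δ g) u).card < (embs F (gr M δ g) v).card := by
  have huv : u ≠ v := fun h => by rw [h] at hv; omega
  apply embs_lt_of_nested
  · intro q hq hqv
    rcases Nat.lt_or_ge M q.val with h | h
    · rw [low_high hδM (by omega) h] at hq ⊢
      rcases hq with hq | ⟨r, hr, hr', _⟩
      · left; omega
      · omega
    · exact absurd hq (low_low (by omega) h)
  · have hbd : ∀ r : Fin δ, 2 * M - u.val + r.val < 2 * M + 1 := fun r => by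
      have := r.2; omega
    obtain ⟨ψ, h3, h4, h5, h6⟩ := star_exists (M := M) (δ := δ) (g := g) F hM v (by omega)
      (fun r => ⟨2 * M - u.val + r.val, hbd r⟩)
      (fun r r' h => by
        have := congrArg Fin.val h
        simp only at this
        exact Fin.ext (by omega))
      (fun r => by simp only; omega)
      (fun r => by
        rw [low_high hδM (by omega) (by simp only; omega)]
        left; simp only; omega)
      ⟨0, hδ⟩ u huv.symm
      (fun r h => by
        have := congrArg Fin.val h
        simp only at this
        omega) hx hb
    refine ⟨ψ, mem_obs_of_edge h3 h6 hb h4 ?_⟩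
    rw [h5, low_high hδM (by omega) (by simp only; omega)]
    rintro (h | ⟨r, hr, hr', _⟩)
    · simp only at h; omega
    · omega

/-- Comparison of the two middle vertices. -/
theorem step_mid (F : SimpleGraph W) (hM : Fintype.card W ≤ M) (hδM : δ ≤ M) (hδ : 1 ≤ δ)
    (hg : 1 ≤ g) (hgM : g * δ + 1 ≤ M)
    (u v : Fin (2 * M + 1)) (hv : v.val = u.val + 1) (h1 : u.val = M)
    {x b : W} (hx : (nb F x).card = δ) (hb : F.Adj x b) :
    (embs F (gr M δ g) u).card < (embs F (gr M δ g) v).card := by
  apply embs_lt_of_nested
  · intro q hq hqv
    rcases Nat.lt_or_ge M q.val with h | h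
    · exact high_adj (by omega) h hqv.symm
    · exact absurd hq (low_low (by omega) h)
  · have hbd : ∀ r : Fin δ, M + 1 + g * r.val < 2 * M + 1 := fun r => by
      have := mul_step (g := g) r.2; omega
    obtain ⟨ψ, h3, h4, h5, h6⟩ := star_exists (M := M) (δ := δ) (g := g) F hM
      ⟨0, by omega⟩ (by simp)
      (fun r => ⟨M + 1 + g * r.val, hbd r⟩)
      (fun r r' h => by
        have := congrArg Fin.val h
        simp only at this
        exact Fin.ext (mul_inj hg (by omega)))
      (fun r => by simp only; omega)
      (fun r => by
        rw [low_high hδM (by simp) (by simp only; omega)]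
        right
        exact ⟨r.val, by simp, r.2, rfl⟩)
      ⟨0, hδ⟩ u
      (fun h => by
        have := congrArg Fin.val h
        simp only at this
        omega)
      (fun r h => by
        have := congrArg Fin.val h
        simp only at this
        omega) hx hb
    refine ⟨ψ, mem_obs_of_edge h3 h6 hb.symm (u := v) ?_ ?_⟩
    · rw [h5]
      apply Fin.ext
      simp only
      omega
    · rw [h4]
      exact low_low (by omega) (by simp)

/-- Comparison of high vertices, nested case. -/
theorem step_high (F : SimpleGraph W) (hM : Fintype.card W ≤ M) (hδM : δ ≤ M) (hδ : 1 ≤ δ)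
    (hg : 1 ≤ g) (hgM : g * δ + δ + 1 ≤ M)
    (u v : Fin (2 * M + 1)) (hv : v.val = u.val + 1) (h1 : M < u.val)
    (hne : ∀ r, r < δ → u.val ≠ M + 1 + g * r)
    {x b : W} (hx : (nb F x).card = δ) (hb : F.Adj x b) :
    (embs F (gr M δ g) u).card < (embs F (gr M δ g) v).card := by
  have hv2 := v.2
  apply embs_lt_of_nested
  · intro q hq hqv
    rcases Nat.lt_or_ge M q.val with h | h
    · exact high_adj (by omega) h hqv.symm
    · have hq' := hq.symm
      rw [low_high hδM h h1] at hq'
      apply SimpleGraph.Adj.symm
      rw [low_high hδM h (by omega)]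
      rcases hq' with hq' | ⟨r, _, h2, h3⟩
      · left; omega
      · exact absurd h3 (hne r h2)
  · obtain ⟨l, hl⟩ : ∃ l : Fin (2 * M + 1), l.val = 2 * M - u.val := ⟨⟨2 * M - u.val, by omega⟩, rfl⟩
    have hlM : l.val ≤ M := by omega
    have hnadj : ¬ (gr M δ g).Adj u l := by
      intro h
      have h' := h.symm
      rw [low_high hδM hlM h1] at h'
      rcases h' with h' | ⟨r, _, h2, h3⟩
      · omega
      · exact hne r h2 h3
    rcases Nat.lt_or_ge l.val δ with hlδ | hlδ
    · -- the low vertex has degree exactly δ
      have hbd : ∀ r : Fin δ, (if r.val < l.val then 2 * M - r.val else M + 1 + g * r.val) <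
          2 * M + 1 := fun r => by
        have := mul_step (g := g) r.2
        split_ifs <;> omega
      obtain ⟨ψ, h3, h4, h5, h6⟩ := star_exists (M := M) (δ := δ) (g := g) F hM l hlM
        (fun r => ⟨if r.val < l.val then 2 * M - r.val else M + 1 + g * r.val, hbd r⟩)
        (fun r r' h => by
          have h' := congrArg Fin.val h
          simp only at h'
          have e1 := mul_step (g := g) r.2
          have e2 := mul_step (g := g) r'.2
          have e3 := r.2
          have e4 := r'.2
          apply Fin.ext
          split_ifs at h'
          · omega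
          · omega
          · omega
          · exact mul_inj hg (by omega))
        (fun r => by
          have e3 := r.2
          simp only
          split_ifs <;> omega)
        (fun r => by
          have e3 := r.2
          rw [low_high hδM hlM (by simp only; split_ifs <;> omega)]
          simp only
          split_ifs with hr
          · left; omega
          · right
            exact ⟨r.val, by omega, r.2, rfl⟩)
        ⟨l.val - 1, by omega⟩ u
        (fun h => by rw [h] at hlM; omega)
        (fun r h => by
          have h' := congrArg Fin.val h
          simp only at h'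
          split_ifs at h' with hr
          · omega
          · exact hne r.val r.2 h'.symm) hx hb
      refine ⟨ψ, mem_obs_of_edge h3 h6 hb.symm (u := v) ?_ ?_⟩
      · rw [h5]
        apply Fin.ext
        simp only
        rw [if_pos (by omega)]
        omega
      · rw [h4]
        exact hnadj
    · have hbd : ∀ r : Fin δ, v.val + r.val < 2 * M + 1 := fun r => by
        have := r.2; omega
      obtain ⟨ψ, h3, h4, h5, h6⟩ := star_exists (M := M) (δ := δ) (g := g) F hM l hlM
        (fun r => ⟨v.val + r.val, hbd r⟩)
        (fun r r' h => by
          have h' := congrArg Fin.val h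
          simp only at h'
          exact Fin.ext (by omega))
        (fun r => by simp only; omega)
        (fun r => by
          rw [low_high hδM hlM (by simp only; omega)]
          left; simp only; omega)
        ⟨0, hδ⟩ u
        (fun h => by rw [h] at hlM; omega)
        (fun r h => by
          have h' := congrArg Fin.val h
          simp only at h'
          omega) hx hb
      refine ⟨ψ, mem_obs_of_edge h3 h6 hb.symm (u := v) ?_ ?_⟩
      · rw [h5]
        apply Fin.ext
        simp only
        omega
      · rw [h4]
        exact hnadj

end Pool.Agent.Lib.MP_bf8eef_co
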