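import Pool.Agent.Lib.MP_bf8eef_co.Basic

set_option autoImplicit false

namespace Pool.Agent.Lib.MP_bf8eef_co

open Finset
open scoped Classical

/-- The neighbours of `x` in `F`. -/
noncomputable def nb {W : Type} [Fintype W] (F : SimpleGraph W) (x : W) : Finset W :=
  univ.filter fun y => F.Adj x y

theorem mem_nb {W : Type} [Fintype W] {F : SimpleGraph W} {x y : W} : y ∈ nb F x ↔ F.Adj x y := by
  simp [nb]

/-- The extra edges from the low vertices to the middle. -/
def ext (M δ g : ℕ) (p q : ℕ) : Prop := ∃ r, p ≤ r ∧ r < δ ∧ q = M + 1 + g * r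

/-- The modified antiregular graph for non complete graphs. -/
def gr (M δ g : ℕ) : SimpleGraph (Fin (2 * M + 1)) where
  Adj p q := p ≠ q ∧ (2 * M + 1 ≤ p.val + q.val ∨ ext M δ g p.val q.val ∨ ext M δ g q.val p.val)
  symm := ⟨fun p q h => ⟨h.1.symm, by
    rcases h.2 with h | h | h
    · left; omega
    · right; right; exact h
    · right; left; exact h⟩⟩
  loopless := ⟨fun p h => h.1 rfl⟩

section
variable {M δ g : ℕ}

theorem high_adj {p q : Fin (2 * M + 1)} (hp : M < p.val) (hq : M < q.val) (h : p ≠ q) :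
    (gr M δ g).Adj p q := by
  have : p.val ≠ q.val := fun h' => h (Fin.ext h')
  exact ⟨h, Or.inl (by omega)⟩

theorem low_high (_hδ : δ ≤ M) {p q : Fin (2 * M + 1)} (hp : p.val ≤ M) (hq : M < q.val) :
    (gr M δ g).Adj p q ↔ 2 * M + 1 ≤ p.val + q.val ∨ ext M δ g p.val q.val := by
  constructor
  · rintro ⟨_, h | h | ⟨r, h1, h2, h3⟩⟩
    · exact Or.inl h
    · exact Or.inr h
    · exfalso; omega
  · intro h
    refine ⟨fun h' => by rw [h'] at hp; omega, ?_⟩
    rcases h with h | h
    · exact Or.inl h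
    · exact Or.inr (Or.inl h)

theorem low_low {p q : Fin (2 * M + 1)} (hp : p.val ≤ M) (hq : q.val ≤ M) :
    ¬ (gr M δ g).Adj p q := by
  rintro ⟨h0, h | ⟨r, h1, h2, h3⟩ | ⟨r, h1, h2, h3⟩⟩
  · have : p.val ≠ q.val := fun h' => h0 (Fin.ext h')
    omega
  · omega
  · omega

theorem card_high (M : ℕ) : (univ.filter fun t : Fin (2 * M + 1) => M < t.val).card = M := by
  have h := Fin.card_filter_val_lt (n := 2 * M + 1) (m := M + 1)
  have h2 := Finset.card_filter_add_card_filter_not (s := (univ : Finset (Fin (2 * M + 1))))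
    (fun t => M < t.val)
  have h3 : (univ.filter fun t : Fin (2 * M + 1) => ¬ M < t.val) =
      univ.filter fun t : Fin (2 * M + 1) => t.val < M + 1 := by
    ext t; simp
  rw [h3, h] at h2
  simp only [card_univ, Fintype.card_fin] at h2
  omega

end

section star
variable {W V : Type} [Fintype W]

/-- Prescribing the images of the neighbours of a vertex. -/
theorem exists_prescribed (F : SimpleGraph W) {δ : ℕ} {x : W} (hx : (nb F x).card = δ)
    (s : Fin δ → V) (hs : Function.Injective s) (a : V) (r0 : Fin δ) {b : W} (hb : b ∈ nb F x) :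
    ∃ p : W → V, p x = a ∧ p b = s r0 ∧ (∀ w ∈ nb F x, ∃ r, p w = s r) ∧
      Set.InjOn p (nb F x) := by
  have hc : Fintype.card {w // w ∈ nb F x} = Fintype.card (Fin δ) := by simp [hx]
  let e := Fintype.equivOfCardEq hc
  let e' := e.trans (Equiv.swap (e ⟨b, hb⟩) r0)
  have hxn : x ∉ nb F x := by simp [mem_nb]
  refine ⟨fun w => if h : w ∈ nb F x then s (e' ⟨w, h⟩) else a, ?_, ?_, ?_, ?_⟩
  · simp [hxn]
  · simp [hb, e']
  · intro w hw
    exact ⟨e' ⟨w, hw⟩, by simp [hw]⟩
  · intro w hw w' hw' h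
    have hw1 : w ∈ nb F x := hw
    have hw2 : w' ∈ nb F x := hw'
    simp only [hw1, hw2, dif_pos] at h
    have := e'.injective (hs h)
    simpa using this

end star

section
variable {W : Type} [Fintype W] {M δ g : ℕ}

/-- Existence of an embedding placing a vertex of minimum degree on a low vertex. -/
theorem star_exists (F : SimpleGraph W) (hM : Fintype.card W ≤ M)
    (a : Fin (2 * M + 1)) (ha : a.val ≤ M) (s : Fin δ → Fin (2 * M + 1))
    (hs : Function.Injective s) (hh : ∀ r, M < (s r).val) (hadj : ∀ r, (gr M δ g).Adj a (s r))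
    (r0 : Fin δ) (u : Fin (2 * M + 1)) (hua : a ≠ u) (hus : ∀ r, s r ≠ u)
    {x b : W} (hx : (nb F x).card = δ) (hb : F.Adj x b) :
    ∃ ψ : W → Fin (2 * M + 1), Emb F (gr M δ g) ψ ∧ ψ x = a ∧ ψ b = s r0 ∧ ∀ w, ψ w ≠ u := by
  obtain ⟨p, hpx, hpb, hpn, hpi⟩ := exists_prescribed F hx s hs a r0 (mem_nb.2 hb)
  have hxn : x ∉ nb F x := by simp [mem_nb]
  set P : Finset W := insert x (nb F x) with hP
  have hPc : P.card = δ + 1 := by rw [hP, Finset.card_insert_of_notMem hxn, hx]
  set S : Finset (Fin (2 * M + 1)) :=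
    (univ.filter fun t : Fin (2 * M + 1) => M < t.val) \ (insert u (univ.image s)) with hS
  have hSc : M - (δ + 1) ≤ S.card := by
    have h1 := Finset.le_card_sdiff (insert u (univ.image s))
      (univ.filter fun t : Fin (2 * M + 1) => M < t.val)
    rw [card_high] at h1
    have h2 : (insert u (univ.image s)).card ≤ δ + 1 := by
      refine (Finset.card_insert_le _ _).trans ?_
      have := Finset.card_image_le (s := univ) (f := s)
      simp only [card_univ, Fintype.card_fin] at this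
      omega
    rw [hS]
    omega
  have hSm : ∀ t, t ∈ S ↔ M < t.val ∧ t ≠ u ∧ ∀ r, s r ≠ t := by
    intro t; simp [hS]
  have hPm : ∀ w, w ∈ P ↔ w = x ∨ F.Adj x w := by
    intro w; simp [hP, mem_nb]
  have hpne : ∀ w ∈ nb F x, p w ≠ a := by
    intro w hw h
    obtain ⟨r, hr⟩ := hpn w hw
    have := hh r
    rw [← hr, h] at this
    omega
  have key := descFactorial_le_card (F := F) (G := gr M δ g) P p ?_ ?_ S ?_ ?_ ?_
  · have hpos : 0 < S.card.descFactorial (Fintype.card W - P.card) := by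
      apply Nat.descFactorial_pos.2
      omega
    obtain ⟨ψ, hψ⟩ := Finset.card_pos.1 (lt_of_lt_of_le hpos key)
    simp only [mem_filter, mem_univ, true_and] at hψ
    refine ⟨ψ, hψ.1, ?_, ?_, ?_⟩
    · rw [hψ.2.1 x ((hPm x).2 (Or.inl rfl)), hpx]
    · rw [hψ.2.1 b ((hPm b).2 (Or.inr hb)), hpb]
    · intro w
      by_cases hw : w ∈ P
      · rw [hψ.2.1 w hw]
        rcases (hPm w).1 hw with rfl | h
        · rw [hpx]; exact hua
        · obtain ⟨r, hr⟩ := hpn w (mem_nb.2 h)
          rw [hr]; exact hus r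
      · exact ((hSm _).1 (hψ.2.2 w hw)).2.1
  · intro w hw w' hw' h
    have hw1 : w ∈ P := hw
    have hw2 : w' ∈ P := hw'
    rw [hPm] at hw1 hw2
    rcases hw1 with rfl | h1 <;> rcases hw2 with rfl | h2
    · rfl
    · rw [hpx] at h
      exact absurd h.symm (hpne w' (mem_nb.2 h2))
    · rw [hpx] at h
      exact absurd h (hpne w (mem_nb.2 h1))
    · exact hpi (mem_nb.2 h1) (mem_nb.2 h2) h
  · intro w hw w' hw' h
    rw [hPm] at hw hw'
    rcases hw with rfl | h1 <;> rcases hw' with rfl | h2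
    · exact absurd rfl h.ne
    · obtain ⟨r, hr⟩ := hpn w' (mem_nb.2 h2)
      rw [hpx, hr]; exact hadj r
    · obtain ⟨r, hr⟩ := hpn w (mem_nb.2 h1)
      rw [hpx, hr]; exact (hadj r).symm
    · obtain ⟨r, hr⟩ := hpn w (mem_nb.2 h1)
      obtain ⟨r', hr'⟩ := hpn w' (mem_nb.2 h2)
      refine high_adj ?_ ?_ ?_
      · rw [hr]; exact hh r
      · rw [hr']; exact hh r'
      · intro h'
        exact h.ne (hpi (mem_nb.2 h1) (mem_nb.2 h2) h')
  · intro t ht t' ht' hne
    exact high_adj ((hSm t).1 ht).1 ((hSm t').1 ht').1 hne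
  · intro w hw ht
    rcases (hPm w).1 hw with rfl | h
    · rw [hpx] at ht
      have := ((hSm _).1 ht).1
      omega
    · obtain ⟨r, hr⟩ := hpn w (mem_nb.2 h)
      exact ((hSm _).1 ht).2.2 r hr.symm
  · intro w hw w' hw' h t ht
    rcases (hPm w).1 hw with rfl | h1
    · exact absurd ((hPm w').2 (Or.inr h)) hw'
    · obtain ⟨r, hr⟩ := hpn w (mem_nb.2 h1)
      refine high_adj ?_ ((hSm t).1 ht).1 ?_
      · rw [hr]; exact hh r
      · rw [hr]; exact ((hSm t).1 ht).2.2 r

end

end Pool.Agent.Lib.MP_bf8eef_co
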